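import Mathlib
import Pool.Agent.R503.CSD.Bas

/-! # MP_77d073_nt: relations between the values of a counterexample

Let `n ≥ 3` be prime, let `L 1, ..., L n` be independent linear forms with product `F` bounded away
from zero at the nonzero integer points. For integer points `x 1, ..., x m` let `Values L x` be the
set of the vectors `(F (γ x 1), ..., F (γ x m))`, `γ` integral of determinant `±1`.

1. Let `L` be a recurrent counterexample to Oppenheim's conjecture, `m < n`, and let the `x k` be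
   linearly independent. If a function `φ` of class `C^r` on an open set `V` is zero on
   `V ∩ Values L x`, so are all its derivatives of order `≤ r`. So the values at independent points
   satisfy no relation `φ = 0` of class `C^1` with nonzero derivative, not even locally.
2. Call the `x k` free if the derivative of `L ↦ (F (x 1), ..., F (x m)) / det L` is surjective at
   some `L`; `m < n` linearly independent points are free, and so are the `n` vectors of a basis of
   `ℤ ^ n`. Let `L` be a recurrent counterexample and the `x k` free. An analytic function on a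
   connected open set which meets `Values L x` is zero if it is zero on `Values L x`.
3. Let `m ≥ 1` and the `x k` free. Oppenheim's conclusion holds for `L` (recurrent or not) if and
   only if some nonzero analytic function on `ℝ ^ m` is zero on `Values L x`.
4. So Oppenheim's conclusion holds for `L` if and only if there is a nonzero analytic function `φ`
   with `φ (F (p 1), ..., F (p n)) = 0` for all bases `p 1, ..., p n` of `ℤ ^ n`.
5. Oppenheim's conjecture in the prime dimension `n` is equivalent to: if `F` is bounded away from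
   zero, its values at the bases of `ℤ ^ n` satisfy a nontrivial analytic relation. -/

set_option autoImplicit false

open Filter Topology

namespace Pool.Agent.Results.MP_77d073_nt.AnalyticRelations

variable {n : ℕ}

/-- the product of the linear forms with the coefficients `L i`, at an integer point -/
noncomputable def F (L : Fin n → Fin n → ℝ) (p : Fin n → ℤ) : ℝ :=
  ∏ i : Fin n, ∑ j : Fin n, L i j * (p j : ℝ)

/-- the product is bounded away from zero at the nonzero integer points -/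
def BoundedAway (L : Fin n → Fin n → ℝ) : Prop :=
  ∃ ν : ℝ, 0 < ν ∧ ∀ p : Fin n → ℤ, p ≠ 0 → ν ≤ |F L p|

/-- Oppenheim's conclusion: there is an irreducible RS-matrix whose invariant planes are the
hyperplanes `L i = 0`. -/
def HasMatrix (L : Fin n → Fin n → ℝ) : Prop :=
  ∃ A : Matrix (Fin n) (Fin n) ℤ,
    A.det = 1 ∧
    Irreducible (A.charpoly.map (Int.castRingHom ℚ)) ∧
    (∀ z : ℂ, Polynomial.aeval z A.charpoly = 0 → z.im = 0) ∧
    ∀ i : Fin n, ∀ x : Fin n → ℝ, ∑ j, L i j * x j = 0 →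
      ∑ j, L i j * ((A.map (Int.cast : ℤ → ℝ)).mulVec x) j = 0

/-- Oppenheim's conjecture in dimension `n` -/
def Oppenheim (n : ℕ) : Prop :=
  ∀ L : Fin n → Fin n → ℝ, LinearIndependent ℝ L → BoundedAway L → HasMatrix L

/-- The limits of the systems `a i • (L i ∘ γ)`, `a` positive of product one, `γ` integral of
determinant `±1`. -/
def Limits (L : Fin n → Fin n → ℝ) : Set (Fin n → Fin n → ℝ) :=
  closure {L' | ∃ (a : Fin n → ℝ) (γ : Matrix (Fin n) (Fin n) ℤ), (∀ i, 0 < a i) ∧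
    ∏ i, a i = 1 ∧ |γ.det| = 1 ∧ ∀ i j, L' i j = a i * ∑ k, L i k * (γ k j : ℝ)}

/-- `L` is a limit of each of its limits. -/
def Recurrent (L : Fin n → Fin n → ℝ) : Prop := ∀ L' ∈ Limits L, L ∈ Limits L'

/-- the vectors of the values at the points `γ x 1, ..., γ x m` -/
def Values {m : ℕ} (L : Fin n → Fin n → ℝ) (x : Fin m → Fin n → ℤ) : Set (Fin m → ℝ) :=
  {y | ∃ γ : Matrix (Fin n) (Fin n) ℤ, |γ.det| = 1 ∧ ∀ k, y k = F L (γ.mulVec (x k))}

/-- The derivative of `L ↦ (F (x 1), ..., F (x m)) / det L` is surjective at some `L` with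
`det L ≠ 0`. -/
def FreePoints {m : ℕ} (x : Fin m → Fin n → ℤ) : Prop :=
  ∃ L : Fin n → Fin n → ℝ, (Matrix.of L).det ≠ 0 ∧
    Function.Surjective (fderiv ℝ (fun (L : Fin n → Fin n → ℝ) (k : Fin m) =>
      F L (x k) / (Matrix.of L).det) L)

/-- The points are linearly independent. -/
def Independent {m : ℕ} (x : Fin m → Fin n → ℤ) : Prop :=
  LinearIndependent ℝ (fun (k : Fin m) (j : Fin n) => (x k j : ℝ))

lemma limits_eq (L : Fin n → Fin n → ℝ) (L' : Fin n → Fin n → ℝ) :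
    L' ∈ Limits L ↔ Matrix.of L' ∈ closure (H715R2.Orb (Matrix.of L)) := by
  have h1 : {L' : Fin n → Fin n → ℝ | ∃ (a : Fin n → ℝ) (γ : Matrix (Fin n) (Fin n) ℤ),
      (∀ i, 0 < a i) ∧ ∏ i, a i = 1 ∧ |γ.det| = 1 ∧
      ∀ i j, L' i j = a i * ∑ k, L i k * (γ k j : ℝ)} =
      (H715R2.Orb (Matrix.of L) : Set (Fin n → Fin n → ℝ)) := by
    ext h
    constructor
    · rintro ⟨a, γ, ha0, ha1, hγ, hh⟩
      refine ⟨a, γ, ha0, ha1, Int.isUnit_iff_abs_eq.2 hγ, ?_⟩
      funext i j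
      rw [hh, Matrix.mul_assoc, Matrix.diagonal_mul, Matrix.mul_apply]
      rfl
    · rintro ⟨a, γ, ha0, ha1, hγ, hh⟩
      refine ⟨a, γ, ha0, ha1, Int.isUnit_iff_abs_eq.1 hγ, fun i j => ?_⟩
      rw [hh, Matrix.mul_assoc, Matrix.diagonal_mul, Matrix.mul_apply]
      rfl
  unfold Limits
  rw [h1]
  rfl

lemma indep_of_det {L : Fin n → Fin n → ℝ} (h : (Matrix.of L).det ≠ 0) :
    LinearIndependent ℝ L := by
  have h1 : IsUnit (Matrix.of L) :=
    (Matrix.isUnit_iff_isUnit_det _).2 (isUnit_iff_ne_zero.2 h)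
  exact Matrix.linearIndependent_rows_iff_isUnit.2 h1

lemma recurrent_iff (L : Fin n → Fin n → ℝ) :
    Recurrent L ↔ TH314.CSD.Recurrent (Matrix.of L) := by
  unfold Recurrent TH314.CSD.Recurrent
  simp only [limits_eq]
  exact Iff.rfl

lemma minB_of_recurrent {h : Matrix (Fin n) (Fin n) ℝ} (hh : TH314.CSD.Recurrent h) :
    Y327.MinB id (closure (H715R2.Orb h)) := by
  refine ⟨isClosed_closure, ⟨h, subset_closure (H715R2.mem_orb_self h)⟩,
    Y327.invB_of_inv (TH314.CSD.inv_closure h) id, fun Z hZ hZc hZne hZinv => ?_⟩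
  obtain ⟨h', hh'⟩ := hZne
  refine subset_antisymm hZ ?_
  have h1 : closure (H715R2.Orb h') ⊆ Z := by
    refine closure_minimal ?_ hZc
    rintro _ ⟨a, γ, ha0, ha1, hγ, rfl⟩
    exact hZinv h' hh' a γ ⟨ha0, ha1, fun i j hij => by rw [show i = j from hij]⟩ hγ
  exact (TH314.CSD.orb_closure_trans (hh h' (hZ hh'))).trans h1

lemma not_propInt (hn : 3 ≤ n) {L : Fin n → Fin n → ℝ} (hL : LinearIndependent ℝ L)
    (hb : BoundedAway L) (hA : ¬ HasMatrix L) : ¬ H715R2.PropInt (Matrix.of L) := fun hP =>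
  hA (Pool.Agent.H905R2.Opp.opp_of_propInt (by omega) hL hb hP)

lemma propInt (hn : 3 ≤ n) {L : Fin n → Fin n → ℝ} (hL : LinearIndependent ℝ L)
    (hb : BoundedAway L) (hA : HasMatrix L) : H715R2.PropInt (Matrix.of L) := by
  obtain ⟨ν, hν, hF⟩ := hb
  obtain ⟨A, -, hA1, -, hA2⟩ := hA
  exact Y327.propInt_of_opp hn (Pool.Agent.H905R2.Opp.det_ne hL) hν hF hA1 hA2

/-- the properties of a limit -/
lemma limit_props (hn : 3 ≤ n) {L : Fin n → Fin n → ℝ} (hL : LinearIndependent ℝ L)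
    (hb : BoundedAway L) {L' : Fin n → Fin n → ℝ} (hL' : L' ∈ Limits L) :
    LinearIndependent ℝ L' ∧ BoundedAway L' ∧ (HasMatrix L ↔ HasMatrix L') := by
  have hdet := Pool.Agent.H905R2.Opp.det_ne hL
  have h1 := (limits_eq L L').1 hL'
  have hdet' : (Matrix.of L').det ≠ 0 := by
    rw [← abs_ne_zero, H715R2.abs_det_closure h1, abs_ne_zero]
    exact hdet
  have hind := indep_of_det hdet'
  obtain ⟨ν, hν, hF⟩ := hb
  have hb' : BoundedAway L' := ⟨ν, hν, H715R2.hasNu_closure hF h1⟩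
  refine ⟨hind, hb', fun hA => ?_, fun hA => ?_⟩
  · by_contra hA'
    exact not_propInt hn hind hb' hA'
      (Y327.propInt_closure hn hdet hν hF (propInt hn hL ⟨ν, hν, hF⟩ hA) h1)
  · by_contra hA'
    exact Y327.not_propInt_closure hn hdet hν hF (not_propInt hn hL ⟨ν, hν, hF⟩ hA') h1
      (propInt hn hind hb' hA)

/-- there are recurrent limits -/
lemma exists_recurrent (hn : 3 ≤ n) {L : Fin n → Fin n → ℝ} (hL : LinearIndependent ℝ L)
    (hb : BoundedAway L) : ∃ L' ∈ Limits L, Recurrent L' := by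
  have hdet := Pool.Agent.H905R2.Opp.det_ne hL
  obtain ⟨ν, hν, hF⟩ := hb
  obtain ⟨M, hMg, hM⟩ := Y327.exists_min_closure (by omega : 0 < n) hdet hν hF
  obtain ⟨h, hh⟩ := hM.ne
  obtain ⟨L', rfl⟩ : ∃ L' : Fin n → Fin n → ℝ, Matrix.of L' = h := ⟨h, rfl⟩
  refine ⟨L', (limits_eq L L').2 (hMg hh), (recurrent_iff L').2 ?_⟩
  have hcl : ∀ h' ∈ M, closure (H715R2.Orb h') = M := fun h' hh' =>
    H715R2.closure_orb_eq hM.closed (Y327.inv_of_invB hM.inv)
      (fun Z hZ hZc hZn hZi => hM.min Z hZ hZc hZn (Y327.invB_of_inv hZi id)) hh'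
  intro h' hh'
  rw [hcl _ hh] at hh'
  rw [hcl _ hh']
  exact hh

/-- values at a point of the limits -/
lemma values_mem {m : ℕ} {L : Fin n → Fin n → ℝ} (x : Fin m → Fin n → ℤ)
    {h : Fin n → Fin n → ℝ} (hh : Matrix.of h ∈ closure (H715R2.Orb (Matrix.of L))) :
    R503.CSD.FV x h ∈ closure (Values L x) := by
  have hc : Continuous (fun h : Matrix (Fin n) (Fin n) ℝ =>
      (fun k => H715R2.FF h (H715R2.iR (x k)) : Fin m → ℝ)) :=
    continuous_pi fun k => H715R2.continuous_FF _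
  refine map_mem_closure (f := fun h : Matrix (Fin n) (Fin n) ℝ =>
      (fun k => H715R2.FF h (H715R2.iR (x k)) : Fin m → ℝ)) hc hh ?_
  rintro _ ⟨a, γ, ha0, ha1, hγ, rfl⟩
  refine ⟨γ, Int.isUnit_iff_abs_eq.1 hγ, fun k => ?_⟩
  exact H715R2.FF_orb ha1 (Matrix.of L) γ (x k)

/-- the values come from the orbit -/
lemma exists_of_values {m : ℕ} {L : Fin n → Fin n → ℝ} {x : Fin m → Fin n → ℤ}
    {y : Fin m → ℝ} (hy : y ∈ Values L x) :
    ∃ h : Fin n → Fin n → ℝ, Matrix.of h ∈ closure (H715R2.Orb (Matrix.of L)) ∧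
      R503.CSD.FV x h = y := by
  obtain ⟨γ, hγ, hy⟩ := hy
  refine ⟨fun i j => (Matrix.of L * H715R2.zR γ) i j, subset_closure ?_, ?_⟩
  · refine ⟨fun _ => 1, γ, fun _ => one_pos, by simp, Int.isUnit_iff_abs_eq.2 hγ, ?_⟩
    have h1 : Matrix.diagonal (fun _ : Fin n => (1 : ℝ)) = 1 := Matrix.diagonal_one
    rw [h1, Matrix.one_mul]
    rfl
  · funext k
    have h1 : R503.CSD.FV x (fun i j => (Matrix.of L * H715R2.zR γ) i j) k =
        H715R2.FF (Matrix.of L * H715R2.zR γ) (H715R2.iR (x k)) := rfl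
    rw [h1, H715R2.FF_mul, H715R2.zR_mulVec_iR, hy]
    rfl

lemma isOpen_values_zero {m : ℕ} {L : Fin n → Fin n → ℝ} {x : Fin m → Fin n → ℤ}
    {V : Set (Fin m → ℝ)} (hV : IsOpen V) {φ : (Fin m → ℝ) → ℝ} (hφ : ContinuousOn φ V)
    (hz : ∀ y ∈ V ∩ Values L x, φ y = 0) {y : Fin m → ℝ} (hy : y ∈ closure (Values L x))
    (hyV : y ∈ V) : φ y = 0 := by
  by_contra hne
  have h1 : ContinuousAt φ y := hφ.continuousAt (hV.mem_nhds hyV)
  have h2 : ∀ᶠ z in 𝓝 y, φ z ≠ 0 ∧ z ∈ V :=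
    (h1.eventually_ne hne).and (hV.mem_nhds hyV)
  obtain ⟨z, ⟨hz1, hz2⟩, hz3⟩ := mem_closure_iff_nhds.1 hy _ h2
  exact hz1 (hz z ⟨hz2, hz3⟩)

lemma det_ne' {L : Fin n → Fin n → ℝ} (hL : LinearIndependent ℝ L) : R503.CSD.dt L ≠ 0 :=
  Pool.Agent.H905R2.Opp.det_ne hL

lemma lf_ne' {L : Fin n → Fin n → ℝ} (hb : BoundedAway L) (i : Fin n) {p : Fin n → ℤ}
    (hp : p ≠ 0) : R503.CSD.lf i p L ≠ 0 := by
  obtain ⟨ν, hν, hF⟩ := hb
  intro h0
  have h1 := hF p hp
  have h2 : F L p = 0 := Finset.prod_eq_zero (Finset.mem_univ i) h0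
  rw [h2, abs_zero] at h1
  exact absurd h1 (not_le.2 hν)

/-- an analytic relation of an integral form -/
lemma exists_relation {L : Fin n → Fin n → ℝ} (hP : H715R2.PropInt (Matrix.of L)) {m : ℕ}
    (hm : 0 < m) (x : Fin m → Fin n → ℤ) :
    ∃ φ : (Fin m → ℝ) → ℝ, AnalyticOnNhd ℝ φ Set.univ ∧ φ ≠ 0 ∧ ∀ y ∈ Values L x, φ y = 0 := by
  obtain ⟨c, hc, hz⟩ := H715R2.values_of_propInt hP
  set k₀ : Fin m := ⟨0, hm⟩ with hk₀
  refine ⟨fun y => Real.sin (c⁻¹ * y k₀ * Real.pi), ?_, ?_, ?_⟩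
  · intro y _
    have h1 : AnalyticAt ℝ (fun y : Fin m → ℝ => c⁻¹ * y k₀ * Real.pi) y :=
      (analyticAt_const.mul ((ContinuousLinearMap.proj (R := ℝ) (φ := fun _ : Fin m => ℝ)
        k₀).analyticAt y)).mul analyticAt_const
    exact (Real.analyticAt_sin).comp h1
  · intro h0
    have h1 := congrFun h0 (fun _ => c / 2)
    simp only [Pi.zero_apply] at h1
    rw [show c⁻¹ * (c / 2) * Real.pi = Real.pi / 2 by field_simp, Real.sin_pi_div_two] at h1
    exact one_ne_zero h1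
  · rintro y ⟨γ, hγ, hy⟩
    obtain ⟨z, hz1⟩ := hz (γ.mulVec (x k₀))
    have h1 : y k₀ = c * z := (hy k₀).trans hz1
    show Real.sin (c⁻¹ * y k₀ * Real.pi) = 0
    rw [h1, inv_mul_cancel_left₀ hc]
    exact Real.sin_int_mul_pi z

lemma free_of_independent {m : ℕ} (hm : m < n) {x : Fin m → Fin n → ℤ} (hx : Independent x)
    {L : Fin n → Fin n → ℝ} (hL : LinearIndependent ℝ L) (hb : BoundedAway L) :
    FreePoints x :=
  R503.CSD.free_indep hm hx (det_ne' hL)
    (fun i k => lf_ne' hb i (R503.CSD.ne_zero_of_indep hx k))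

lemma bas_col (γ : Matrix (Fin n) (Fin n) ℤ) (k : Fin n) :
    γ.mulVec (R503.CSD.bas n k) = fun i => γ i k := by
  funext i
  rw [R503.CSD.bas, Matrix.mulVec_single_one]
  rfl

theorem result (n : ℕ) (hn : 3 ≤ n) (hp : n.Prime) :
    -- 1. relations of class `C^r` between the values at independent points
    (∀ L : Fin n → Fin n → ℝ, LinearIndependent ℝ L → BoundedAway L → ¬ HasMatrix L →
      Recurrent L → ∀ (m : ℕ) (x : Fin m → Fin n → ℤ), m < n → Independent x →
        ∀ (V : Set (Fin m → ℝ)) (φ : (Fin m → ℝ) → ℝ) (r : WithTop ℕ∞), IsOpen V →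
          ContDiffOn ℝ r φ V → (∀ y ∈ V ∩ Values L x, φ y = 0) →
          ∀ q : ℕ, (q : WithTop ℕ∞) ≤ r → ∀ y ∈ V ∩ Values L x, iteratedFDeriv ℝ q φ y = 0) ∧
    -- 2. analytic relations between the values at free points
    (∀ L : Fin n → Fin n → ℝ, LinearIndependent ℝ L → BoundedAway L → ¬ HasMatrix L →
      Recurrent L → ∀ (m : ℕ) (x : Fin m → Fin n → ℤ),
        (FreePoints x ∨ (m < n ∧ Independent x)) →
        ∀ (V : Set (Fin m → ℝ)) (φ : (Fin m → ℝ) → ℝ), IsOpen V → IsConnected V →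
          AnalyticOnNhd ℝ φ V → (V ∩ Values L x).Nonempty →
          (∀ y ∈ V ∩ Values L x, φ y = 0) → ∀ y ∈ V, φ y = 0) ∧
    -- 3. a criterion for a single product
    (∀ L : Fin n → Fin n → ℝ, LinearIndependent ℝ L → BoundedAway L →
      ∀ (m : ℕ) (x : Fin m → Fin n → ℤ), 0 < m → (FreePoints x ∨ (m < n ∧ Independent x)) →
        (HasMatrix L ↔ ∃ φ : (Fin m → ℝ) → ℝ, AnalyticOnNhd ℝ φ Set.univ ∧ φ ≠ 0 ∧
          ∀ y ∈ Values L x, φ y = 0)) ∧
    -- 4. the values at the bases of `ℤ ^ n`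
    (∀ L : Fin n → Fin n → ℝ, LinearIndependent ℝ L → BoundedAway L →
      (HasMatrix L ↔ ∃ φ : (Fin n → ℝ) → ℝ, AnalyticOnNhd ℝ φ Set.univ ∧ φ ≠ 0 ∧
        ∀ γ : Matrix (Fin n) (Fin n) ℤ, |γ.det| = 1 →
          φ (fun k => F L (fun i => γ i k)) = 0)) ∧
    -- 5. the conjecture in the prime dimension `n`
    (Oppenheim n ↔ ∀ L : Fin n → Fin n → ℝ, LinearIndependent ℝ L → BoundedAway L →
      ∃ φ : (Fin n → ℝ) → ℝ, AnalyticOnNhd ℝ φ Set.univ ∧ φ ≠ 0 ∧
        ∀ γ : Matrix (Fin n) (Fin n) ℤ, |γ.det| = 1 →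
          φ (fun k => F L (fun i => γ i k)) = 0) := by
  classical
  have hfree : ∀ L : Fin n → Fin n → ℝ, LinearIndependent ℝ L → BoundedAway L →
      ∀ (m : ℕ) (x : Fin m → Fin n → ℤ), (FreePoints x ∨ (m < n ∧ Independent x)) →
        R503.CSD.Free x := by
    rintro L hL hb m x (hx | ⟨hm, hx⟩)
    · exact hx
    · exact free_of_independent hm hx hL hb
  have part2 : ∀ L : Fin n → Fin n → ℝ, LinearIndependent ℝ L → BoundedAway L →
      ¬ HasMatrix L → Recurrent L → ∀ (m : ℕ) (x : Fin m → Fin n → ℤ), R503.CSD.Free x →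
        ∀ (V : Set (Fin m → ℝ)) (φ : (Fin m → ℝ) → ℝ), IsOpen V → IsPreconnected V →
          AnalyticOnNhd ℝ φ V → (V ∩ Values L x).Nonempty →
          (∀ h : Fin n → Fin n → ℝ, Matrix.of h ∈ closure (H715R2.Orb (Matrix.of L)) →
            R503.CSD.FV x h ∈ V → φ (R503.CSD.FV x h) = 0) → ∀ y ∈ V, φ y = 0 := by
    rintro L hL hb hA hrec m x hx V φ hV hVc hφ ⟨y₁, hy₁V, hy₁⟩ hz
    have hint := not_propInt hn hL hb hA
    obtain ⟨ν, hν, hF⟩ := hb
    have hM := minB_of_recurrent ((recurrent_iff L).1 hrec)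
    obtain ⟨h₁, hh₁, rfl⟩ := exists_of_values hy₁
    exact R503.CSD.analytic_values hn hp (Pool.Agent.H905R2.Opp.det_ne hL) hν hF hint
      subset_rfl hM hx hV hVc hφ hz hh₁ hy₁V
  have part3 : ∀ L : Fin n → Fin n → ℝ, LinearIndependent ℝ L → BoundedAway L →
      ∀ (m : ℕ) (x : Fin m → Fin n → ℤ), 0 < m → (FreePoints x ∨ (m < n ∧ Independent x)) →
        (HasMatrix L ↔ ∃ φ : (Fin m → ℝ) → ℝ, AnalyticOnNhd ℝ φ Set.univ ∧ φ ≠ 0 ∧
          ∀ y ∈ Values L x, φ y = 0) := by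
    intro L hL hb m x hm hx
    constructor
    · intro hA
      exact exists_relation (propInt hn hL hb hA) hm x
    · rintro ⟨φ, hφ, hne, hz⟩
      by_contra hA
      obtain ⟨L', hL', hrec⟩ := exists_recurrent hn hL hb
      obtain ⟨hi', hb', hA'⟩ := limit_props hn hL hb hL'
      apply hne
      funext y
      have hz' : ∀ h : Fin n → Fin n → ℝ, Matrix.of h ∈ closure (H715R2.Orb (Matrix.of L')) →
          R503.CSD.FV x h ∈ Set.univ → φ (R503.CSD.FV x h) = 0 := by
        intro h hh _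
        have h1 : Matrix.of h ∈ closure (H715R2.Orb (Matrix.of L)) :=
          TH314.CSD.orb_closure_trans ((limits_eq L L').1 hL') hh
        exact isOpen_values_zero isOpen_univ hφ.continuousOn
          (fun y hy => hz y hy.2) (values_mem x h1) (Set.mem_univ _)
      refine part2 L' hi' hb' (fun h => hA (hA'.2 h)) hrec m x (hfree L hL hb m x hx) Set.univ φ
        isOpen_univ isPreconnected_univ hφ ?_ hz' y (Set.mem_univ _)
      exact ⟨fun k => F L' ((1 : Matrix (Fin n) (Fin n) ℤ).mulVec (x k)), Set.mem_univ _, 1,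
        by simp, fun k => rfl⟩
  have part4 : ∀ L : Fin n → Fin n → ℝ, LinearIndependent ℝ L → BoundedAway L →
      (HasMatrix L ↔ ∃ φ : (Fin n → ℝ) → ℝ, AnalyticOnNhd ℝ φ Set.univ ∧ φ ≠ 0 ∧
        ∀ γ : Matrix (Fin n) (Fin n) ℤ, |γ.det| = 1 →
          φ (fun k => F L (fun i => γ i k)) = 0) := by
    intro L hL hb
    rw [part3 L hL hb n (R503.CSD.bas n) (by omega) (Or.inl (R503.CSD.free_bas hn))]
    constructor
    · rintro ⟨φ, hφ, hne, hz⟩
      refine ⟨φ, hφ, hne, fun γ hγ => hz _ ⟨γ, hγ, fun k => ?_⟩⟩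
      rw [bas_col]
    · rintro ⟨φ, hφ, hne, hz⟩
      refine ⟨φ, hφ, hne, ?_⟩
      rintro y ⟨γ, hγ, hy⟩
      have h1 : y = fun k => F L (fun i => γ i k) := by
        funext k
        rw [hy, bas_col]
      rw [h1]
      exact hz γ hγ
  refine ⟨?_, ?_, part3, part4, ?_⟩
  · intro L hL hb hA hrec m x hm hx V φ r hV hφ hz q hq y hy
    have hint := not_propInt hn hL hb hA
    obtain ⟨ν, hν, hF⟩ := hb
    have hM := minB_of_recurrent ((recurrent_iff L).1 hrec)
    obtain ⟨h₁, hh₁, rfl⟩ := exists_of_values hy.2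
    refine R503.CSD.flat_values hn hp (Pool.Agent.H905R2.Opp.det_ne hL) hν hF hint
      subset_rfl hM hm hx hV hφ (fun h hh hhV => ?_) q hq h₁ hh₁ hy.1
    exact isOpen_values_zero hV hφ.continuousOn hz (values_mem x hh) hhV
  · intro L hL hb hA hrec m x hx V φ hV hVc hφ hne hz
    refine part2 L hL hb hA hrec m x (hfree L hL hb m x hx) V φ hV hVc.isPreconnected hφ hne
      (fun h hh hhV => ?_)
    exact isOpen_values_zero hV hφ.continuousOn hz (values_mem x hh) hhV
  · constructor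
    · intro hO L hL hb
      exact (part4 L hL hb).1 (hO L hL hb)
    · intro hO L hL hb
      exact (part4 L hL hb).2 (hO L hL hb)

end Pool.Agent.Results.MP_77d073_nt.AnalyticRelations
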