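import Mathlib
import Pool.Agent.R750.CV.Dir
import Pool.Agent.H715R2.Uncountable
import Pool.Agent.H905R2.OppD
import Pool.Agent.Y327.Full

/-! # MP_77d073_nt: Oppenheim's conclusion is decided by the limit values along one direction

Let `n ≥ 3` and let `L₁, …, L_n` be linearly independent real linear forms whose product `F` is
bounded away from zero at the nonzero integer points. Let `θ` be a real vector with sum zero and
`δ > 0`. A number `t` is a limit value of `|F|` along `(θ, δ)` if there are integer points `x ≠ 0`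
and numbers `s → ∞` with `|log |L_k (x)| - s θ_k| ≤ δ s` for all `k` and `|F (x)| → t`. Let
`T > (n! / n ^ n) |det L|`, or more generally let `T` be such that every product of `n` linear forms
with the same absolute determinant takes a value of absolute value `< T` at some nonzero integer
point.

There is `A ∈ SL(n, ℤ)` with irreducible characteristic polynomial and real eigenvalues whose
invariant planes are the hyperplanes `L_i = 0` if and only if the limit values `t < T` along
`(θ, δ)` form a countable set. So a counterexample to Oppenheim's conjecture has uncountably many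
limit values below `T` along every direction. -/

set_option autoImplicit false

open Filter Topology

namespace Pool.Agent.Results.MP_77d073_nt.DirectionValues

variable {n : ℕ}

/-- the product of the linear forms at an integer point -/
noncomputable def F (L : Fin n → Fin n → ℝ) (p : Fin n → ℤ) : ℝ := ∏ i, ∑ j, L i j * (p j : ℝ)

/-- the product is bounded away from zero at the nonzero integer points -/
def BoundedAway (L : Fin n → Fin n → ℝ) : Prop :=
  ∃ c : ℝ, 0 < c ∧ ∀ p : Fin n → ℤ, p ≠ 0 → c ≤ |F L p|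

/-- there is `A ∈ SL(n, ℤ)` with irreducible characteristic polynomial and real eigenvalues whose
invariant planes are the hyperplanes `L i = 0` -/
def HasMatrix (L : Fin n → Fin n → ℝ) : Prop :=
  ∃ A : Matrix (Fin n) (Fin n) ℤ,
    A.det = 1 ∧
    Irreducible (A.charpoly.map (Int.castRingHom ℚ)) ∧
    (∀ z : ℂ, Polynomial.aeval z A.charpoly = 0 → z.im = 0) ∧
    ∀ i : Fin n, ∀ x : Fin n → ℝ, ∑ j, L i j * x j = 0 →
      ∑ j, L i j * ((A.map (Int.cast : ℤ → ℝ)).mulVec x) j = 0

/-- The limit values of `|F L x|` at the integer points `x ≠ 0` for which the vector of the numbers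
`log |L_k (x)|` is at distance at most `δ s` from `s θ`, with `s → ∞`. -/
def LimitAlong (θ : Fin n → ℝ) (δ : ℝ) (L : Fin n → Fin n → ℝ) : Set ℝ :=
  {t | ∀ (ε : ℝ) (N : ℕ), 0 < ε → ∃ (x : Fin n → ℤ) (s : ℝ), x ≠ 0 ∧ (N : ℝ) ≤ s ∧
    (∀ k, |Real.log |∑ j, L k j * (x j : ℝ)| - θ k * s| ≤ δ * s) ∧ |(|F L x| - t)| < ε}

/-- `T > (n! / n ^ n) V`, or more generally every product of `n` linear forms in `n` variables of
absolute determinant `V` takes a value of absolute value `< T` at a nonzero integer point -/
def Admissible (n : ℕ) (V T : ℝ) : Prop :=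
  (n.factorial : ℝ) * V < (n : ℝ) ^ n * T ∨
    ∀ h : Fin n → Fin n → ℝ, |(Matrix.of h).det| = V → ∃ x : Fin n → ℤ, x ≠ 0 ∧ |F h x| < T

theorem result (n : ℕ) (hn : 3 ≤ n) (L : Fin n → Fin n → ℝ) (hL : LinearIndependent ℝ L)
    (hc : BoundedAway L) (T : ℝ) (hT : Admissible n |(Matrix.of L).det| T)
    (θ : Fin n → ℝ) (hθ : ∑ k, θ k = 0) (δ : ℝ) (hδ : 0 < δ) :
    HasMatrix L ↔ {t : ℝ | t < T ∧ t ∈ LimitAlong θ δ L}.Countable := by
  have hdet := Pool.Agent.H905R2.Opp.det_ne hL
  obtain ⟨ν, hν, hnu⟩ := hc
  have hnu' : H715R2.HasNu (Matrix.of L) ν := hnu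
  constructor
  · rintro ⟨A, -, hirr, -, hinv⟩
    have hint : H715R2.PropInt (Matrix.of L) :=
      Pool.Agent.Y327.propInt_of_opp hn hdet hν hnu' hirr hinv
    have hcount := H715R2.countable_VV hint
    refine (hcount.image fun t => |t|).mono ?_
    rintro t ⟨-, ht⟩
    -- the absolute values at integer points form a closed set
    obtain ⟨c, hc, hz⟩ := H715R2.values_of_propInt hint
    have hcl : IsClosed (Set.range fun m : Fin n → ℤ =>
        |H715R2.FF (Matrix.of L) (H715R2.iR m)|) := by
      have hc' : |c| ≠ 0 := abs_ne_zero.2 hc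
      have h1 : (Set.range fun m : Fin n → ℤ => |H715R2.FF (Matrix.of L) (H715R2.iR m)|) ⊆
          (fun t : ℝ => |c| * t) '' (Set.range (Int.cast : ℤ → ℝ)) := by
        rintro _ ⟨x, rfl⟩
        obtain ⟨z, hz⟩ := hz x
        refine ⟨((|z| : ℤ) : ℝ), ⟨|z|, rfl⟩, ?_⟩
        simp only
        rw [hz, abs_mul, Int.cast_abs]
      -- subsets of the image of the integers are closed
      have h2 : Topology.IsClosedEmbedding (fun z : ℤ => |c| * (z : ℝ)) :=
        (Homeomorph.mulLeft₀ |c| hc').isClosedEmbedding.comp Int.isClosedEmbedding_coe_real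
      have h3 : (Set.range fun m : Fin n → ℤ => |H715R2.FF (Matrix.of L) (H715R2.iR m)|) =
          (fun z : ℤ => |c| * (z : ℝ)) '' ((fun z : ℤ => |c| * (z : ℝ)) ⁻¹'
            (Set.range fun m : Fin n → ℤ => |H715R2.FF (Matrix.of L) (H715R2.iR m)|)) := by
        rw [Set.image_preimage_eq_of_subset]
        intro t ht
        obtain ⟨_, ⟨z, rfl⟩, hz⟩ := h1 ht
        exact ⟨z, hz⟩
      rw [h3]
      exact h2.isClosedMap _ (isClosed_discrete _)
    have hmem : t ∈ Set.range fun m : Fin n → ℤ => |H715R2.FF (Matrix.of L) (H715R2.iR m)| := by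
      rw [← hcl.closure_eq, Metric.mem_closure_iff]
      intro ε hε
      obtain ⟨x, -, -, -, -, hx⟩ := ht ε 0 hε
      refine ⟨_, ⟨x, rfl⟩, ?_⟩
      rw [dist_comm, Real.dist_eq]
      exact hx
    obtain ⟨m, hm⟩ := hmem
    exact ⟨_, subset_closure ⟨m, rfl⟩, hm⟩
  · intro hC
    refine Pool.Agent.H905R2.Opp.opp_of_propInt (by omega) hL ⟨ν, hν, hnu⟩ ?_
    refine R750.CV.direction hn hθ hδ hdet hν hnu' ?_ hC
    rcases hT with hT | hT
    · exact fun h hh => H715R2.mink_prod (by omega) _ T (abs_pos.2 hdet) hT h hh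
    · exact fun h hh => hT h hh

end Pool.Agent.Results.MP_77d073_nt.DirectionValues
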