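import Mathlib
import Pool.Agent.R503.CSD.Loc
import Pool.Agent.R405.OC3

/-! # MP_77d073_nt: systems with algebraically independent coefficients

Let `n ≥ 3`, let `L 1, ..., L n` be independent linear forms with product `F` bounded away from zero
at the nonzero integer points, let `Limits L` be the set of the limits of the systems
`a i • (L i ∘ γ)` (`a` positive of product one, `γ` integral of determinant `±1`) and `Cone L` the
set of their positive multiples. `L` is recurrent if it lies in `Limits L'` for all `L'` in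
`Limits L`; every `L` has recurrent limits.

1. Let `L` be a recurrent counterexample to Oppenheim's conjecture. Consider countably many
   relations `f k = 0` on open sets `W k`, `f k` strictly differentiable, each with an index `i k`
   and a set `J k` of more than `n - p` other indices (`p` the least prime factor of `n`), so that
   at the points of the relation the derivative of `f k` in the direction in which `M j` is added to
   `M (i k)` is not zero for `j` in `J k`. The limits of `L` which satisfy none of the relations are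
   dense in `Limits L`.
2. For every countable subfield `K` of `ℝ` the systems `M` for which there is a set of coefficients,
   at least `p` in each form (so at least `n p` in all), algebraically independent over `K`, are
   dense in `Cone L`, for every recurrent counterexample `L`.
3. For every `L` with product bounded away from zero: Oppenheim's conclusion holds for `L` if and
   only if no `M` in `Cone L` has such a set of coefficients, and if and only if for all `M` in
   `Cone L` any two coefficients of the same form are algebraically dependent over `K`.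
4. Oppenheim's conjecture in dimension `n` is equivalent to: the product of `n` linearly independent
   forms with such a set of coefficients takes arbitrarily small values at nonzero integer points.
5. (`n` prime) Let `L` be a recurrent counterexample. The elements of `Cone L` which lie on none of
   countably many given `C^1` hypersurfaces are dense in `Cone L`.
6. (`n` prime) The same for countably many analytic relations, not identically zero on connected
   open sets.
7. For prime `n` the sets in 2-4 consist of all `n ^ 2` coefficients, and Oppenheim's conjecture in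
   dimension `n` is equivalent to: the product of `n` forms with `n ^ 2` algebraically independent
   coefficients over `K` takes arbitrarily small values at nonzero integer points. -/

set_option autoImplicit false

open Filter Topology

namespace Pool.Agent.Results.MP_77d073_nt.IndependentCoefficients

variable {n : ℕ}

/-- the product of the linear forms with the coefficients `L i`, at an integer point -/
noncomputable def F (L : Fin n → Fin n → ℝ) (p : Fin n → ℤ) : ℝ :=
  ∏ i : Fin n, ∑ j : Fin n, L i j * (p j : ℝ)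

/-- the product is bounded away from zero at the nonzero integer points -/
def BoundedAway (L : Fin n → Fin n → ℝ) : Prop :=
  ∃ ν : ℝ, 0 < ν ∧ ∀ p : Fin n → ℤ, p ≠ 0 → ν ≤ |F L p|

/-- Oppenheim's conclusion: there is an irreducible RS-matrix whose invariant planes are the
hyperplanes `L i = 0`. -/
def HasMatrix (L : Fin n → Fin n → ℝ) : Prop :=
  ∃ A : Matrix (Fin n) (Fin n) ℤ,
    A.det = 1 ∧
    Irreducible (A.charpoly.map (Int.castRingHom ℚ)) ∧
    (∀ z : ℂ, Polynomial.aeval z A.charpoly = 0 → z.im = 0) ∧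
    ∀ i : Fin n, ∀ x : Fin n → ℝ, ∑ j, L i j * x j = 0 →
      ∑ j, L i j * ((A.map (Int.cast : ℤ → ℝ)).mulVec x) j = 0

/-- Oppenheim's conjecture in dimension `n` -/
def Oppenheim (n : ℕ) : Prop :=
  ∀ L : Fin n → Fin n → ℝ, LinearIndependent ℝ L → BoundedAway L → HasMatrix L

/-- The limits of the systems `a i • (L i ∘ γ)`, `a` positive of product one, `γ` integral of
determinant `±1`. -/
def Limits (L : Fin n → Fin n → ℝ) : Set (Fin n → Fin n → ℝ) :=
  closure {L' | ∃ (a : Fin n → ℝ) (γ : Matrix (Fin n) (Fin n) ℤ), (∀ i, 0 < a i) ∧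
    ∏ i, a i = 1 ∧ |γ.det| = 1 ∧ ∀ i j, L' i j = a i * ∑ k, L i k * (γ k j : ℝ)}

/-- the positive multiples of the limits -/
def Cone (L : Fin n → Fin n → ℝ) : Set (Fin n → Fin n → ℝ) :=
  {L' | ∃ c : ℝ, 0 < c ∧ ∃ L'' ∈ Limits L, L' = c • L''}

/-- `L` is a limit of each of its limits. -/
def Recurrent (L : Fin n → Fin n → ℝ) : Prop := ∀ L' ∈ Limits L, L ∈ Limits L'

/-- the form `L j` in place `i`, the other forms zero -/
def place (i j : Fin n) (L : Fin n → Fin n → ℝ) : Fin n → Fin n → ℝ :=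
  fun a => if a = i then L j else 0

/-- There is a set of coefficients, algebraically independent over `K`, with at least `p`
coefficients of each form, `p` the least prime factor of `n`. -/
def ManyIndependent (K : Subfield ℝ) (M : Fin n → Fin n → ℝ) : Prop :=
  ∃ B : Finset (Fin n × Fin n), AlgebraicIndependent K (fun q : B => M q.1.1 q.1.2) ∧
    ∀ i, n.minFac ≤ (Finset.univ.filter (fun b => (i, b) ∈ B)).card

lemma limits_eq (L : Fin n → Fin n → ℝ) (L' : Fin n → Fin n → ℝ) :
    L' ∈ Limits L ↔ Matrix.of L' ∈ closure (H715R2.Orb (Matrix.of L)) := by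
  have h1 : {L' : Fin n → Fin n → ℝ | ∃ (a : Fin n → ℝ) (γ : Matrix (Fin n) (Fin n) ℤ),
      (∀ i, 0 < a i) ∧ ∏ i, a i = 1 ∧ |γ.det| = 1 ∧
      ∀ i j, L' i j = a i * ∑ k, L i k * (γ k j : ℝ)} =
      (H715R2.Orb (Matrix.of L) : Set (Fin n → Fin n → ℝ)) := by
    ext h
    constructor
    · rintro ⟨a, γ, ha0, ha1, hγ, hh⟩
      refine ⟨a, γ, ha0, ha1, Int.isUnit_iff_abs_eq.2 hγ, ?_⟩
      funext i j
      rw [hh, Matrix.mul_assoc, Matrix.diagonal_mul, Matrix.mul_apply]
      rfl
    · rintro ⟨a, γ, ha0, ha1, hγ, hh⟩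
      refine ⟨a, γ, ha0, ha1, Int.isUnit_iff_abs_eq.1 hγ, fun i j => ?_⟩
      rw [hh, Matrix.mul_assoc, Matrix.diagonal_mul, Matrix.mul_apply]
      rfl
  unfold Limits
  rw [h1]
  rfl

lemma cone_eq (L : Fin n → Fin n → ℝ) (L' : Fin n → Fin n → ℝ) :
    L' ∈ Cone L ↔ L' ∈ R503.CSD.Cn (closure (H715R2.Orb (Matrix.of L))) := by
  unfold Cone R503.CSD.Cn
  simp only [limits_eq]
  rfl

lemma place_eq (i j : Fin n) (L : Fin n → Fin n → ℝ) : place i j L = R503.CSD.RR i j L := by
  funext a b
  simp only [place, R503.CSD.RR]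
  split_ifs <;> rfl

lemma indep_of_det {L : Fin n → Fin n → ℝ} (h : (Matrix.of L).det ≠ 0) :
    LinearIndependent ℝ L := by
  have h1 : IsUnit (Matrix.of L) :=
    (Matrix.isUnit_iff_isUnit_det _).2 (isUnit_iff_ne_zero.2 h)
  exact Matrix.linearIndependent_rows_iff_isUnit.2 h1

lemma recurrent_iff (L : Fin n → Fin n → ℝ) :
    Recurrent L ↔ TH314.CSD.Recurrent (Matrix.of L) := by
  unfold Recurrent TH314.CSD.Recurrent
  simp only [limits_eq]
  exact Iff.rfl

lemma minB_of_recurrent {h : Matrix (Fin n) (Fin n) ℝ} (hh : TH314.CSD.Recurrent h) :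
    Y327.MinB id (closure (H715R2.Orb h)) := by
  refine ⟨isClosed_closure, ⟨h, subset_closure (H715R2.mem_orb_self h)⟩,
    Y327.invB_of_inv (TH314.CSD.inv_closure h) id, fun Z hZ hZc hZne hZinv => ?_⟩
  obtain ⟨h', hh'⟩ := hZne
  refine subset_antisymm hZ ?_
  have h1 : closure (H715R2.Orb h') ⊆ Z := by
    refine closure_minimal ?_ hZc
    rintro _ ⟨a, γ, ha0, ha1, hγ, rfl⟩
    exact hZinv h' hh' a γ ⟨ha0, ha1, fun i j hij => by rw [show i = j from hij]⟩ hγ
  exact (TH314.CSD.orb_closure_trans (hh h' (hZ hh'))).trans h1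

lemma not_propInt (hn : 3 ≤ n) {L : Fin n → Fin n → ℝ} (hL : LinearIndependent ℝ L)
    (hb : BoundedAway L) (hA : ¬ HasMatrix L) : ¬ H715R2.PropInt (Matrix.of L) := fun hP =>
  hA (Pool.Agent.H905R2.Opp.opp_of_propInt (by omega) hL hb hP)

lemma propInt (hn : 3 ≤ n) {L : Fin n → Fin n → ℝ} (hL : LinearIndependent ℝ L)
    (hb : BoundedAway L) (hA : HasMatrix L) : H715R2.PropInt (Matrix.of L) := by
  obtain ⟨ν, hν, hF⟩ := hb
  obtain ⟨A, -, hA1, -, hA2⟩ := hA
  exact Y327.propInt_of_opp hn (Pool.Agent.H905R2.Opp.det_ne hL) hν hF hA1 hA2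

/-- the properties of a limit -/
lemma limit_props (hn : 3 ≤ n) {L : Fin n → Fin n → ℝ} (hL : LinearIndependent ℝ L)
    (hb : BoundedAway L) {L' : Fin n → Fin n → ℝ} (hL' : L' ∈ Limits L) :
    LinearIndependent ℝ L' ∧ BoundedAway L' ∧ (HasMatrix L ↔ HasMatrix L') := by
  have hdet := Pool.Agent.H905R2.Opp.det_ne hL
  have h1 := (limits_eq L L').1 hL'
  have hdet' : (Matrix.of L').det ≠ 0 := by
    rw [← abs_ne_zero, H715R2.abs_det_closure h1, abs_ne_zero]
    exact hdet
  have hind := indep_of_det hdet'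
  obtain ⟨ν, hν, hF⟩ := hb
  have hb' : BoundedAway L' := ⟨ν, hν, H715R2.hasNu_closure hF h1⟩
  refine ⟨hind, hb', fun hA => ?_, fun hA => ?_⟩
  · by_contra hA'
    exact not_propInt hn hind hb' hA'
      (Y327.propInt_closure hn hdet hν hF (propInt hn hL ⟨ν, hν, hF⟩ hA) h1)
  · by_contra hA'
    exact Y327.not_propInt_closure hn hdet hν hF (not_propInt hn hL ⟨ν, hν, hF⟩ hA') h1
      (propInt hn hind hb' hA)

/-- there are recurrent limits -/
lemma exists_recurrent (hn : 3 ≤ n) {L : Fin n → Fin n → ℝ} (hL : LinearIndependent ℝ L)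
    (hb : BoundedAway L) : ∃ L' ∈ Limits L, Recurrent L' := by
  have hdet := Pool.Agent.H905R2.Opp.det_ne hL
  obtain ⟨ν, hν, hF⟩ := hb
  obtain ⟨M, hMg, hM⟩ := Y327.exists_min_closure (by omega : 0 < n) hdet hν hF
  obtain ⟨h, hh⟩ := hM.ne
  obtain ⟨L', rfl⟩ : ∃ L' : Fin n → Fin n → ℝ, Matrix.of L' = h := ⟨h, rfl⟩
  refine ⟨L', (limits_eq L L').2 (hMg hh), (recurrent_iff L').2 ?_⟩
  have hcl : ∀ h' ∈ M, closure (H715R2.Orb h') = M := fun h' hh' =>
    H715R2.closure_orb_eq hM.closed (Y327.inv_of_invB hM.inv)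
      (fun Z hZ hZc hZn hZi => hM.min Z hZ hZc hZn (Y327.invB_of_inv hZi id)) hh'
  intro h' hh'
  rw [hcl _ hh] at hh'
  rw [hcl _ hh']
  exact hh

/-- limits of limits -/
lemma limits_trans {L L' : Fin n → Fin n → ℝ} (hL' : L' ∈ Limits L) : Limits L' ⊆ Limits L := by
  intro L'' h
  exact (limits_eq L L'').2 (TH314.CSD.orb_closure_trans ((limits_eq L L').1 hL')
    ((limits_eq L' L'').1 h))

lemma self_mem (L : Fin n → Fin n → ℝ) : L ∈ Limits L :=
  (limits_eq L L).2 (subset_closure (H715R2.mem_orb_self _))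

lemma self_cone (L : Fin n → Fin n → ℝ) : L ∈ Cone L :=
  ⟨1, one_pos, L, self_mem L, by rw [one_smul]⟩

lemma F_smul (c : ℝ) (L : Fin n → Fin n → ℝ) (p : Fin n → ℤ) : F (c • L) p = c ^ n * F L p := by
  unfold F
  have h1 : ∀ i : Fin n, ∑ j : Fin n, (c • L) i j * (p j : ℝ) =
      c * ∑ j : Fin n, L i j * (p j : ℝ) := by
    intro i
    rw [Finset.mul_sum]
    refine Finset.sum_congr rfl fun j _ => ?_
    simp only [Pi.smul_apply, smul_eq_mul]
    ring
  simp only [h1]
  rw [Finset.prod_mul_distrib, Finset.prod_const, Finset.card_univ, Fintype.card_fin]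

lemma boundedAway_smul {c : ℝ} (hc : 0 < c) {L : Fin n → Fin n → ℝ} (hb : BoundedAway L) :
    BoundedAway (c • L) := by
  obtain ⟨ν, hν, h⟩ := hb
  refine ⟨c ^ n * ν, by positivity, fun p hp => ?_⟩
  rw [F_smul, abs_mul, abs_of_pos (pow_pos hc n)]
  exact mul_le_mul_of_nonneg_left (h p hp) (by positivity)

/-- the parametrisation of the cone -/
noncomputable def Phi (L : Fin n → Fin n → ℝ) (x : (Limits L) × ℝ) : Fin n → Fin n → ℝ :=
  Real.exp x.2 • (x.1 : Fin n → Fin n → ℝ)

lemma continuous_Phi (L : Fin n → Fin n → ℝ) : Continuous (Phi L) := by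
  unfold Phi
  exact (Real.continuous_exp.comp continuous_snd).smul (continuous_subtype_val.comp continuous_fst)

lemma range_Phi (L : Fin n → Fin n → ℝ) : Set.range (Phi L) = Cone L := by
  ext M
  constructor
  · rintro ⟨x, rfl⟩
    exact ⟨Real.exp x.2, Real.exp_pos _, x.1, x.1.2, rfl⟩
  · rintro ⟨c, hc, L', hL', rfl⟩
    refine ⟨(⟨L', hL'⟩, Real.log c), ?_⟩
    simp only [Phi, Real.exp_log hc]

lemma open_Phi (hn : 0 < n) {L : Fin n → Fin n → ℝ} (hdet : (Matrix.of L).det ≠ 0)
    (x : (Limits L) × ℝ) (U : Set ((Limits L) × ℝ)) (hU : U ∈ 𝓝 x) :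
    ∀ᶠ M in 𝓝 (Phi L x), M ∈ Set.range (Phi L) → ∃ y ∈ U, Phi L y = M := by
  have hn' : (n : ℝ) ≠ 0 := by exact_mod_cast hn.ne'
  have hdg : 0 < |(Matrix.of L).det| := abs_pos.2 hdet
  set q : (Fin n → Fin n → ℝ) → ℝ := fun M => |(Matrix.of M).det| / |(Matrix.of L).det| with hq
  set Ψ : (Fin n → Fin n → ℝ) → (Fin n → Fin n → ℝ) × ℝ := fun M =>
    (Real.exp (-((n : ℝ)⁻¹ * Real.log (q M))) • M, (n : ℝ)⁻¹ * Real.log (q M)) with hΨd
  have hqy : ∀ y : (Limits L) × ℝ, q (Phi L y) = Real.exp (n * y.2) := by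
    intro y
    have h1 : (Matrix.of (Phi L y)) = Real.exp y.2 • Matrix.of (y.1 : Fin n → Fin n → ℝ) := rfl
    have h2 : |(Matrix.of (y.1 : Fin n → Fin n → ℝ)).det| = |(Matrix.of L).det| :=
      H715R2.abs_det_closure ((limits_eq L _).1 y.1.2)
    simp only [hq]
    rw [h1, Matrix.det_smul, Fintype.card_fin, abs_mul, h2, abs_of_pos (pow_pos (Real.exp_pos _) n),
      mul_div_assoc, div_self hdg.ne', mul_one, ← Real.exp_nat_mul]
  have hΨ : ∀ y : (Limits L) × ℝ, Ψ (Phi L y) = Prod.map Subtype.val id y := by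
    intro y
    have h1 : (n : ℝ)⁻¹ * Real.log (q (Phi L y)) = y.2 := by
      rw [hqy, Real.log_exp, ← mul_assoc, inv_mul_cancel₀ hn', one_mul]
    simp only [hΨd, h1]
    refine Prod.ext ?_ rfl
    show Real.exp (-y.2) • (Real.exp y.2 • (y.1 : Fin n → Fin n → ℝ)) = y.1
    rw [smul_smul, ← Real.exp_add, neg_add_cancel, Real.exp_zero, one_smul]
  have hdc : Continuous q := by
    have h1 : Continuous (fun h : Matrix (Fin n) (Fin n) ℝ => h.det) := continuous_id.matrix_det
    exact h1.abs.div_const _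
  have hcont : ContinuousAt Ψ (Phi L x) := by
    have h1 : ContinuousAt (fun M => (n : ℝ)⁻¹ * Real.log (q M)) (Phi L x) := by
      refine continuousAt_const.mul (hdc.continuousAt.log ?_)
      rw [hqy]
      exact (Real.exp_pos _).ne'
    exact ((Real.continuous_exp.continuousAt.comp h1.neg).smul continuousAt_id).prodMk h1
  have hind : Topology.IsInducing
      (Prod.map Subtype.val id : (Limits L) × ℝ → (Fin n → Fin n → ℝ) × ℝ) :=
    Topology.IsInducing.subtypeVal.prodMap Topology.IsInducing.id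
  rw [hind.nhds_eq_comap] at hU
  obtain ⟨V, hV, hVU⟩ := Filter.mem_comap.1 hU
  have hev : ∀ᶠ M in 𝓝 (Phi L x), Ψ M ∈ V := hcont (by rw [hΨ]; exact hV)
  filter_upwards [hev] with M hM hr
  obtain ⟨y, rfl⟩ := hr
  refine ⟨y, hVU ?_, rfl⟩
  rw [Set.mem_preimage, ← hΨ y]
  exact hM

/-- avoiding countably many relations on the cone -/
theorem avoid_cone (hn : 0 < n) {L : Fin n → Fin n → ℝ} (hdet : (Matrix.of L).det ≠ 0)
    {ι : Type*} [Countable ι] (W : ι → Set (Fin n → Fin n → ℝ))
    (f : ι → (Fin n → Fin n → ℝ) → ℝ) (hW : ∀ k, IsOpen (W k))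
    (hf : ∀ k, ContinuousOn (f k) (W k))
    (hz : ∀ k, ∀ M ∈ W k, M ∈ Cone L → f k M = 0 →
      ¬ ∀ᶠ M' in 𝓝 M, M' ∈ Cone L → f k M' = 0) :
    Cone L ⊆ closure {M | M ∈ Cone L ∧ ∀ k, M ∈ W k → f k M ≠ 0} := by
  have : CompleteSpace (Limits L) := (isClosed_closure : IsClosed (Limits L)).completeSpace_coe
  intro M₀ hM₀
  refine mem_closure_iff.2 fun V hV hMV => ?_
  obtain ⟨M, hM1, hM2, hM3⟩ := R405.OC.avoid (continuous_Phi L)
    (fun x U hU => open_Phi hn hdet x U hU) W f hW hf
    (by rw [range_Phi]; exact hz) hV ⟨M₀, hMV, by rw [range_Phi]; exact hM₀⟩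
  rw [range_Phi] at hM2
  exact ⟨M, hM1, hM2, hM3⟩

/-- avoiding countably many relations on the limits -/
theorem avoid_limits {L : Fin n → Fin n → ℝ}
    {ι : Type*} [Countable ι] (W : ι → Set (Fin n → Fin n → ℝ))
    (f : ι → (Fin n → Fin n → ℝ) → ℝ) (hW : ∀ k, IsOpen (W k))
    (hf : ∀ k, ContinuousOn (f k) (W k))
    (hz : ∀ k, ∀ M ∈ W k, M ∈ Limits L → f k M = 0 →
      ¬ ∀ᶠ M' in 𝓝 M, M' ∈ Limits L → f k M' = 0) :
    Limits L ⊆ closure {M | M ∈ Limits L ∧ ∀ k, M ∈ W k → f k M ≠ 0} := by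
  have : CompleteSpace (Limits L) := (isClosed_closure : IsClosed (Limits L)).completeSpace_coe
  intro M₀ hM₀
  refine mem_closure_iff.2 fun V hV hMV => ?_
  have hr : Set.range (Subtype.val : Limits L → (Fin n → Fin n → ℝ)) = Limits L :=
    Subtype.range_coe
  obtain ⟨M, hM1, hM2, hM3⟩ := R405.OC.avoid (Φ := (Subtype.val : Limits L → (Fin n → Fin n → ℝ)))
    continuous_subtype_val
    (fun x U hU => by
      rw [nhds_subtype_eq_comap] at hU
      obtain ⟨V', hV', hVU⟩ := Filter.mem_comap.1 hU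
      filter_upwards [hV'] with M hM hMr
      obtain ⟨y, rfl⟩ := hMr
      exact ⟨y, hVU hM, rfl⟩) W f hW hf
    (by rw [hr]; exact hz) hV ⟨M₀, hMV, by rw [hr]; exact hM₀⟩
  rw [hr] at hM2
  exact ⟨M, hM1, hM2, hM3⟩

/-- avoiding countably many analytic relations on the cone of a recurrent counterexample -/
theorem avoid_analytic (hn : 3 ≤ n) (hp : n.Prime) {L : Fin n → Fin n → ℝ}
    (hL : LinearIndependent ℝ L) (hb : BoundedAway L) (hA : ¬ HasMatrix L) (hrec : Recurrent L)
    {ι : Type*} [Countable ι] (W : ι → Set (Fin n → Fin n → ℝ))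
    (f : ι → (Fin n → Fin n → ℝ) → ℝ) (hW : ∀ k, IsOpen (W k)) (hWc : ∀ k, IsPreconnected (W k))
    (hf : ∀ k, AnalyticOnNhd ℝ (f k) (W k)) (hne : ∀ k, ∃ M ∈ W k, f k M ≠ 0) :
    Cone L ⊆ closure {M | M ∈ Cone L ∧ ∀ k, M ∈ W k → f k M ≠ 0} := by
  have hdet := Pool.Agent.H905R2.Opp.det_ne hL
  refine avoid_cone (by omega) hdet W f hW (fun k => (hf k).continuousOn) ?_
  intro k M hMW hMC _ hev
  have hint := not_propInt hn hL hb hA
  obtain ⟨ν, hν, hF⟩ := hb
  have hM := minB_of_recurrent ((recurrent_iff L).1 hrec)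
  obtain ⟨r, hr, hrB⟩ := Metric.mem_nhds_iff.1 (Filter.inter_mem hev ((hW k).mem_nhds hMW))
  have h1 : ∀ h ∈ Metric.ball M r, f k h = 0 :=
    R503.CSD.analytic_zero hn hp hdet hν hF hint subset_rfl hM Metric.isOpen_ball
      (convex_ball M r).isPreconnected ((hf k).mono fun h hh => (hrB hh).2)
      (fun h hh hhc => (hrB hh).1 ((cone_eq L h).2 hhc)) (Metric.mem_ball_self hr)
      ((cone_eq L M).1 hMC)
  obtain ⟨M₁, hM₁, hne₁⟩ := hne k
  refine hne₁ ?_
  have h2 : Set.EqOn (f k) 0 (W k) :=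
    (hf k).eqOn_zero_of_preconnected_of_eventuallyEq_zero (hWc k) hMW
      (Filter.eventually_of_mem (Metric.ball_mem_nhds M hr) h1)
  exact h2 hM₁

/-- independent coefficients: the forms are linearly independent -/
theorem linearIndependent_of_indep (K : Subfield ℝ) {M : Fin n → Fin n → ℝ}
    (hM : AlgebraicIndependent K (fun q : Fin n × Fin n => M q.1 q.2)) :
    LinearIndependent ℝ M := by
  classical
  refine indep_of_det fun h0 => ?_
  refine Matrix.det_mvPolynomialX_ne_zero (Fin n) K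
    (algebraicIndependent_iff.1 hM (Matrix.mvPolynomialX (Fin n) (Fin n) K).det ?_)
  have h1 : (MvPolynomial.aeval fun q : Fin n × Fin n => M q.1 q.2).mapMatrix
      (Matrix.mvPolynomialX (Fin n) (Fin n) K) = Matrix.of M :=
    Matrix.mvPolynomialX_mapMatrix_aeval K (Matrix.of M)
  rw [AlgHom.map_det, h1]
  exact h0

/-- for a dense set of `M` in the cone every polynomial relation over `K` between the coefficients
of `M` holds on the cone near `M` -/
theorem dense_generic (hn : 0 < n) {L : Fin n → Fin n → ℝ} (hdet : (Matrix.of L).det ≠ 0)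
    (K : Subfield ℝ) (hK : Countable K) :
    Cone L ⊆ closure {M | M ∈ Cone L ∧ ∀ P : MvPolynomial (Fin n × Fin n) K,
      R405.OC.pv P M = 0 → ∀ᶠ M' in 𝓝 M, M' ∈ Cone L → R405.OC.pv P M' = 0} := by
  have : CompleteSpace (Limits L) := (isClosed_closure : IsClosed (Limits L)).completeSpace_coe
  have hc : Countable (MvPolynomial (Fin n × Fin n) K) := R405.OC.countable_mv
  intro M₀ hM₀
  refine mem_closure_iff.2 fun V hV hMV => ?_
  obtain ⟨M, hM1, hM2, hM3⟩ := R405.OC.avoid_closed (continuous_Phi L)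
    (fun x U hU => open_Phi hn hdet x U hU)
    (fun P : MvPolynomial (Fin n × Fin n) K => {M | R405.OC.pv P M = 0} ∩
      {M | ∀ᶠ M' in 𝓝 M, M' ∈ Cone L → R405.OC.pv P M' = 0}ᶜ)
    (fun P => (isClosed_eq (continuousOn_univ.1 (R405.OC.pv_analytic P).continuousOn)
      continuous_const).inter isOpen_setOfPred_eventually_nhds.isClosed_compl)
    (by
      rw [range_Phi]
      rintro P M ⟨_, h2⟩ _ hev
      refine h2 ?_
      filter_upwards [hev] with M' h3 h4
      exact (h3 h4).1) hV ⟨M₀, hMV, by rw [range_Phi]; exact hM₀⟩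
  rw [range_Phi] at hM2
  refine ⟨M, hM1, hM2, fun P hP => ?_⟩
  by_contra hcon
  exact hM3 P ⟨hP, hcon⟩

/-- many independent coefficients, for all `n` -/
theorem dense_rows (hn : 3 ≤ n) (K : Subfield ℝ) (hK : Countable K) {L : Fin n → Fin n → ℝ}
    (hL : LinearIndependent ℝ L) (hb : BoundedAway L) (hA : ¬ HasMatrix L) (hrec : Recurrent L) :
    Cone L ⊆ closure {M | M ∈ Cone L ∧ ManyIndependent K M} := by
  classical
  have hdet := Pool.Agent.H905R2.Opp.det_ne hL
  refine (dense_generic (by omega) hdet K hK).trans (closure_mono ?_)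
  rintro M ⟨hMC, hgen⟩
  refine ⟨hMC, ?_⟩
  have hind : LinearIndependent ℝ M := by
    obtain ⟨c, hc, L', hL', rfl⟩ := hMC
    have h1 := Pool.Agent.H905R2.Opp.det_ne (limit_props hn hL hb hL').1
    refine indep_of_det ?_
    have h2 : Matrix.of (c • L') = c • Matrix.of L' := rfl
    rw [h2, Matrix.det_smul]
    exact mul_ne_zero (pow_ne_zero _ hc.ne') h1
  have hint := not_propInt hn hL hb hA
  obtain ⟨ν, hν, hF⟩ := hb
  have hM := minB_of_recurrent ((recurrent_iff L).1 hrec)
  have hmem : Matrix.of L ∈ closure (H715R2.Orb (Matrix.of L)) :=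
    subset_closure (H715R2.mem_orb_self _)
  have hu : IsUnit (Matrix.of L).det := isUnit_iff_ne_zero.2 hdet
  obtain ⟨s, hs1, hs2⟩ := Y327.class_sizes hn hdet hν hF subset_rfl hM hmem hu
  have hs : 1 < s := by
    obtain ⟨j, hji, hj⟩ := Y327.class_nontrivial hn hdet hν hF hint subset_rfl hM hmem
      ⟨0, by omega⟩
    rw [← hs2 ⟨0, by omega⟩, Nat.card_eq_fintype_card, Fintype.one_lt_card_iff]
    exact ⟨⟨⟨0, by omega⟩, Y327.Sam.refl _ _⟩, ⟨j, hj⟩,
      fun h => hji (congrArg Subtype.val h).symm⟩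
  have hps : n.minFac ≤ s := Nat.minFac_le_of_dvd hs ⟨_, hs1.symm⟩
  refine R405.OC.exists_indep hind
    (fun i => Finset.univ.filter (fun j => Y327.Sam (Matrix.of L) i j)) n.minFac (fun i => ?_) ?_
  · have hcl := hs2 i
    rw [Nat.card_eq_fintype_card, Fintype.card_subtype] at hcl
    rw [hcl]
    exact hps
  · intro P hP i j hj
    have hsam : Y327.Sam (Matrix.of L) i j := (Finset.mem_filter.1 hj).2
    have hf := R405.OC.pv_hasFDerivAt P M
    have hfs := ((R405.OC.pv_analytic P) M (Set.mem_univ M)).hasStrictFDerivAt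
    rw [hf.fderiv] at hfs
    have hz : ∀ᶠ h in 𝓝 M, h ∈ R503.CSD.Cn (closure (H715R2.Orb (Matrix.of L))) →
        R405.OC.pv P h = 0 := by
      filter_upwards [hgen P hP] with h h1 h2
      exact h1 ((cone_eq L h).2 h2)
    have hMCn := (cone_eq L M).1 hMC
    have key : (∑ q : Fin n × Fin n, R405.OC.pv (MvPolynomial.pderiv q P) M •
      ((ContinuousLinearMap.proj (R := ℝ) (φ := fun _ : Fin n => ℝ) q.2).comp
        (ContinuousLinearMap.proj (R := ℝ) (φ := fun _ : Fin n => (Fin n → ℝ)) q.1)))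
        (R503.CSD.RR i j M) = 0 := by
      by_cases hij : i = j
      · subst hij
        exact R503.CSD.strict_diag (by omega) hM.inv hMCn i hf hz
      · exact R503.CSD.strict_root (R503.CSD.small_cn
          (R503.CSD.small_sam hn hdet hν hF subset_rfl hM hmem hij hsam) hMCn) hfs hz
    rw [ContinuousLinearMap.sum_apply, Fintype.sum_prod_type, Finset.sum_eq_single i] at key
    · rw [← key]
      refine Finset.sum_congr rfl fun b _ => ?_
      simp [R503.CSD.RR, mul_comm]
    · intro a _ ha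
      refine Finset.sum_eq_zero fun b _ => ?_
      simp [R503.CSD.RR, ha]
    · intro h
      exact absurd (Finset.mem_univ i) h

/-- Oppenheim's conclusion: two coefficients of one form are algebraically dependent. -/
theorem dependent_pair (hn : 3 ≤ n) (K : Subfield ℝ) {L : Fin n → Fin n → ℝ}
    (hL : LinearIndependent ℝ L) (hb : BoundedAway L) (hA : HasMatrix L) {i a b : Fin n}
    (hab : a ≠ b) {M : Fin n → Fin n → ℝ} (hM : M ∈ Cone L) :
    ¬ AlgebraicIndependent K ![M i a, M i b] := by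
  classical
  obtain ⟨c, hc, L', hL', rfl⟩ := hM
  obtain ⟨hi', hb', hA'⟩ := limit_props hn hL hb hL'
  obtain ⟨c', hc', hz⟩ := propInt hn hi' hb' (hA'.1 hA)
  choose z hz using hz
  obtain ⟨ν, hν, hF⟩ := hb'
  set G : MvPolynomial (Fin n) ℤ :=
    ∑ m ∈ (c' • H715R2.polyF (Matrix.of L')).support, MvPolynomial.monomial m (z m) with hG
  have hGmap : MvPolynomial.map (Int.castRingHom ℝ) G = c' • H715R2.polyF (Matrix.of L') := by
    rw [hG, map_sum]
    conv_rhs => rw [(c' • H715R2.polyF (Matrix.of L')).as_sum]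
    refine Finset.sum_congr rfl fun m _ => ?_
    rw [MvPolynomial.map_monomial, hz m]
    rfl
  have hGe : ∀ x : Fin n → ℝ, MvPolynomial.aeval x G = c' * ∏ k, ∑ j, L' k j * x j := by
    intro x
    have h1 := congrArg (MvPolynomial.eval x) hGmap
    rw [MvPolynomial.eval_map, MvPolynomial.smul_eval, H715R2.eval_polyF] at h1
    rw [MvPolynomial.aeval_def]
    exact h1
  -- the relation
  set y : Fin n → MvPolynomial (Fin 2) K := fun j =>
    if j = a then MvPolynomial.X 1 else if j = b then - MvPolynomial.X 0 else 0 with hy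
  set R : MvPolynomial (Fin 2) K := MvPolynomial.aeval y G with hR
  have hRe : ∀ w : Fin 2 → ℝ, MvPolynomial.aeval w R =
      c' * ∏ k, (L' k a * w 1 - L' k b * w 0) := by
    intro w
    have h1 : MvPolynomial.aeval w R = MvPolynomial.aeval (fun j => MvPolynomial.aeval w (y j)) G := by
      rw [hR]
      have h2 := MvPolynomial.map_aeval (y) ((MvPolynomial.aeval w : MvPolynomial (Fin 2) K →ₐ[K] ℝ).toRingHom) G
      rw [MvPolynomial.aeval_def]
      have h3 : ((MvPolynomial.aeval w : MvPolynomial (Fin 2) K →ₐ[K] ℝ).toRingHom.comp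
        (algebraMap ℤ (MvPolynomial (Fin 2) K))) = algebraMap ℤ ℝ := RingHom.ext_int _ _
      rw [h3] at h2
      exact h2
    rw [h1, hGe]
    congr 1
    refine Finset.prod_congr rfl fun k _ => ?_
    have h4 : ∀ j, L' k j * MvPolynomial.aeval w (y j) =
        (if j = a then L' k a * w 1 else 0) + (if j = b then - (L' k b * w 0) else 0) := by
      intro j
      simp only [hy]
      by_cases h5 : j = a
      · subst h5
        simp [hab]
      · by_cases h6 : j = b
        · subst h6
          simp [h5]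
        · simp [h5, h6]
    simp only [h4, Finset.sum_add_distrib, Finset.sum_ite_eq', Finset.mem_univ, if_true]
    ring
  intro hind
  have h0 : MvPolynomial.aeval ![(c • L') i a, (c • L') i b] R = 0 := by
    rw [hRe]
    have h1 : ∏ k, (L' k a * ![(c • L') i a, (c • L') i b] 1 -
        L' k b * ![(c • L') i a, (c • L') i b] 0) = 0 := by
      refine Finset.prod_eq_zero (Finset.mem_univ i) ?_
      simp only [Matrix.cons_val_zero, Matrix.cons_val_one, Pi.smul_apply, smul_eq_mul]
      ring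
    rw [h1, mul_zero]
  have hR0 := algebraicIndependent_iff.1 hind R h0
  have h5 := hRe ![0, 1]
  rw [hR0, map_zero] at h5
  simp only [Matrix.cons_val_zero, Matrix.cons_val_one, mul_one, mul_zero, sub_zero] at h5
  have h6 : F L' (Pi.single a 1) = ∏ k, L' k a := by
    unfold F
    refine Finset.prod_congr rfl fun k _ => ?_
    rw [Finset.sum_eq_single a]
    · simp
    · intro x _ hx
      simp [Pi.single_eq_of_ne hx]
    · intro h
      exact absurd (Finset.mem_univ a) h
  have h7 := hF (Pi.single a 1) (by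
    intro h0
    have := congrFun h0 a
    simp at this)
  rcases mul_eq_zero.1 h5.symm with h8 | h8
  · exact hc' h8
  · rw [← h6] at h8
    have h9 : (0 : ℝ) < |F L' (Pi.single a 1)| := lt_of_lt_of_le hν h7
    rw [h8] at h9
    simp at h9

/-- two independent coefficients of a form -/
lemma exists_pair (hn : 3 ≤ n) {K : Subfield ℝ} {M : Fin n → Fin n → ℝ}
    (hM : ManyIndependent K M) (i : Fin n) :
    ∃ a b, a ≠ b ∧ AlgebraicIndependent K ![M i a, M i b] := by
  classical
  obtain ⟨B, hB, hB2⟩ := hM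
  have h1 : 1 < (Finset.univ.filter (fun b => (i, b) ∈ B)).card :=
    lt_of_lt_of_le (Nat.minFac_prime (by omega)).one_lt (hB2 i)
  obtain ⟨a, ha, b, hb, hab⟩ := Finset.one_lt_card.1 h1
  rw [Finset.mem_filter] at ha hb
  refine ⟨a, b, hab, ?_⟩
  have h2 := hB.comp (![⟨(i, a), ha.2⟩, ⟨(i, b), hb.2⟩] : Fin 2 → B) (by
    intro u v huv
    fin_cases u <;> fin_cases v
    · rfl
    · exact absurd (congrArg (fun q : B => q.1.2) huv) hab
    · exact absurd (congrArg (fun q : B => q.1.2) huv) hab.symm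
    · rfl)
  have h3 : (fun q : B => M q.1.1 q.1.2) ∘ (![⟨(i, a), ha.2⟩, ⟨(i, b), hb.2⟩] : Fin 2 → B) =
      ![M i a, M i b] := by
    funext u
    fin_cases u <;> rfl
  rw [h3] at h2
  exact h2

/-- prime dimension: all coefficients are independent -/
lemma manyIndependent_iff (hp : n.Prime) (K : Subfield ℝ) (M : Fin n → Fin n → ℝ) :
    ManyIndependent K M ↔ AlgebraicIndependent K (fun q : Fin n × Fin n => M q.1 q.2) := by
  classical
  constructor
  · rintro ⟨B, hB, hB2⟩
    have hall : ∀ q : Fin n × Fin n, q ∈ B := by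
      rintro ⟨i, b⟩
      have h1 := hB2 i
      rw [hp.minFac_eq] at h1
      have h2 : (Finset.univ.filter (fun b => (i, b) ∈ B)) = Finset.univ := by
        refine Finset.eq_univ_of_card _ (le_antisymm (Finset.card_le_univ _) ?_)
        rw [Fintype.card_fin]
        exact h1
      have h3 : b ∈ (Finset.univ.filter (fun b => (i, b) ∈ B)) := by
        rw [h2]
        exact Finset.mem_univ b
      exact (Finset.mem_filter.1 h3).2
    exact hB.comp (fun q : Fin n × Fin n => (⟨q, hall q⟩ : B))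
      (fun a b hab => congrArg Subtype.val hab)
  · intro h
    refine ⟨Finset.univ, h.comp _ Subtype.val_injective, fun i => ?_⟩
    rw [hp.minFac_eq]
    simp

theorem result (n : ℕ) (hn : 3 ≤ n) :
    -- 1. relations which are transversal to many directions
    (∀ L : Fin n → Fin n → ℝ, LinearIndependent ℝ L → BoundedAway L → ¬ HasMatrix L →
      Recurrent L →
      ∀ (W : ℕ → Set (Fin n → Fin n → ℝ)) (f : ℕ → (Fin n → Fin n → ℝ) → ℝ)
        (f' : ℕ → (Fin n → Fin n → ℝ) → ((Fin n → Fin n → ℝ) →L[ℝ] ℝ))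
        (i : ℕ → Fin n) (J : ℕ → Finset (Fin n)),
        (∀ k, IsOpen (W k)) → (∀ k, i k ∉ J k) → (∀ k, n < (J k).card + n.minFac) →
        (∀ k, ∀ M ∈ W k, HasStrictFDerivAt (f k) (f' k M) M) →
        (∀ k, ∀ M ∈ W k, f k M = 0 → ∀ j ∈ J k, f' k M (place (i k) j M) ≠ 0) →
        Limits L ⊆ closure {M | M ∈ Limits L ∧ ∀ k, M ∈ W k → f k M ≠ 0}) ∧
    -- 2. many independent coefficients
    (∀ K : Subfield ℝ, Countable K → ∀ L : Fin n → Fin n → ℝ,
      LinearIndependent ℝ L → BoundedAway L → ¬ HasMatrix L → Recurrent L →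
      Cone L ⊆ closure {M | M ∈ Cone L ∧ ManyIndependent K M}) ∧
    -- 3. a criterion
    (∀ K : Subfield ℝ, Countable K → ∀ L : Fin n → Fin n → ℝ,
      LinearIndependent ℝ L → BoundedAway L →
      (HasMatrix L ↔ ∀ M ∈ Cone L, ¬ ManyIndependent K M) ∧
      (HasMatrix L ↔ ∀ M ∈ Cone L, ∀ i a b : Fin n, a ≠ b →
        ¬ AlgebraicIndependent K ![M i a, M i b])) ∧
    -- 4. the conjecture in dimension `n`
    (∀ K : Subfield ℝ, Countable K →
      (Oppenheim n ↔ ∀ M : Fin n → Fin n → ℝ, LinearIndependent ℝ M → ManyIndependent K M →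
        ¬ BoundedAway M)) ∧
    -- 5. prime dimension: hypersurfaces
    (n.Prime → ∀ L : Fin n → Fin n → ℝ, LinearIndependent ℝ L → BoundedAway L →
      ¬ HasMatrix L → Recurrent L →
      ∀ (W : ℕ → Set (Fin n → Fin n → ℝ)) (f : ℕ → (Fin n → Fin n → ℝ) → ℝ)
        (f' : ℕ → (Fin n → Fin n → ℝ) → ((Fin n → Fin n → ℝ) →L[ℝ] ℝ)),
        (∀ k, IsOpen (W k)) → (∀ k, ∀ M ∈ W k, HasStrictFDerivAt (f k) (f' k M) M) →
        (∀ k, ∀ M ∈ W k, f k M = 0 → f' k M ≠ 0) →
        Cone L ⊆ closure {M | M ∈ Cone L ∧ ∀ k, M ∈ W k → f k M ≠ 0}) ∧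
    -- 6. prime dimension: analytic relations
    (n.Prime → ∀ L : Fin n → Fin n → ℝ, LinearIndependent ℝ L → BoundedAway L →
      ¬ HasMatrix L → Recurrent L →
      ∀ (W : ℕ → Set (Fin n → Fin n → ℝ)) (f : ℕ → (Fin n → Fin n → ℝ) → ℝ),
        (∀ k, IsOpen (W k)) → (∀ k, IsPreconnected (W k)) →
        (∀ k, AnalyticOnNhd ℝ (f k) (W k)) → (∀ k, ∃ M ∈ W k, f k M ≠ 0) →
        Cone L ⊆ closure {M | M ∈ Cone L ∧ ∀ k, M ∈ W k → f k M ≠ 0}) ∧
    -- 7. prime dimension: all coefficients are independent, and the conjecture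
    (n.Prime → ∀ K : Subfield ℝ,
      (∀ M : Fin n → Fin n → ℝ, ManyIndependent K M ↔
        AlgebraicIndependent K (fun q : Fin n × Fin n => M q.1 q.2)) ∧
      (Countable K → (Oppenheim n ↔ ∀ M : Fin n → Fin n → ℝ,
        AlgebraicIndependent K (fun q : Fin n × Fin n => M q.1 q.2) → ¬ BoundedAway M))) := by
  classical
  -- the main step for a counterexample
  have main : ∀ K : Subfield ℝ, Countable K → ∀ L : Fin n → Fin n → ℝ,
      LinearIndependent ℝ L → BoundedAway L → ¬ HasMatrix L → ∃ M ∈ Cone L,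
        LinearIndependent ℝ M ∧ BoundedAway M ∧ ManyIndependent K M := by
    intro K hK L hL hb hA
    obtain ⟨L', hL', hrec⟩ := exists_recurrent hn hL hb
    obtain ⟨hi', hb', hA'⟩ := limit_props hn hL hb hL'
    have h1 := dense_rows hn K hK hi' hb' (fun h => hA (hA'.2 h)) hrec (self_cone L')
    obtain ⟨M, -, ⟨c, hc, L'', hL'', rfl⟩, hind⟩ := mem_closure_iff.1 h1 _ isOpen_univ
      (Set.mem_univ L')
    obtain ⟨hi'', hb'', -⟩ := limit_props hn hi' hb' hL''
    refine ⟨c • L'', ⟨c, hc, L'', limits_trans hL' hL'', rfl⟩, indep_of_det ?_,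
      boundedAway_smul hc hb'', hind⟩
    have h2 : Matrix.of (c • L'') = c • Matrix.of L'' := rfl
    rw [h2, Matrix.det_smul]
    exact mul_ne_zero (pow_ne_zero _ hc.ne') (Pool.Agent.H905R2.Opp.det_ne hi'')
  have opp : ∀ K : Subfield ℝ, Countable K →
      (Oppenheim n ↔ ∀ M : Fin n → Fin n → ℝ, LinearIndependent ℝ M → ManyIndependent K M →
        ¬ BoundedAway M) := by
    intro K hK
    constructor
    · intro hO M hL hM hb
      obtain ⟨a, b, hab, hind⟩ := exists_pair hn hM ⟨0, by omega⟩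
      exact dependent_pair hn K hL hb (hO M hL hb) hab (self_cone M) hind
    · intro h L hL hb
      by_contra hA
      obtain ⟨M, -, hiM, hbM, hind⟩ := main K hK L hL hb hA
      exact h M hiM hind hbM
  refine ⟨?_, fun K hK L hL hb hA hrec => dense_rows hn K hK hL hb hA hrec, ?_, opp, ?_, ?_, ?_⟩
  · -- part 1
    intro L hL hb hA hrec W f f' i J hW hiJ hJ hf hne
    refine avoid_limits W f hW
      (fun k M hM => (hf k M hM).continuousAt.continuousWithinAt) ?_
    intro k M hMW hMC h0 hev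
    have hdet := Pool.Agent.H905R2.Opp.det_ne hL
    have hint := not_propInt hn hL hb hA
    obtain ⟨ν, hν, hF⟩ := hb
    have hM := minB_of_recurrent ((recurrent_iff L).1 hrec)
    have hmem := (limits_eq L M).1 hMC
    obtain ⟨j, hj, hs⟩ := Y327.exists_sam_of_card (i := i k) hn hdet hν hF hint subset_rfl hM
      hmem (hJ k)
    have hij : i k ≠ j := fun h0 => hiJ k (h0 ▸ hj)
    have h1 := R503.CSD.strict_sam hn hdet hν hF subset_rfl hM hmem hij hs hmem (hf k M hMW)
      (c := 0) (by
        filter_upwards [hev] with L'' h1 h2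
        exact h1 ((limits_eq L L'').2 h2))
    rw [← place_eq] at h1
    exact hne k M hMW h0 j hj h1
  · -- part 3
    intro K hK L hL hb
    refine ⟨⟨fun hA M hM hmany => ?_, fun h => ?_⟩, ⟨fun hA M hM i a b hab =>
      dependent_pair hn K hL hb hA hab hM, fun h => ?_⟩⟩
    · obtain ⟨a, b, hab, hind⟩ := exists_pair hn hmany ⟨0, by omega⟩
      exact dependent_pair hn K hL hb hA hab hM hind
    · by_contra hA
      obtain ⟨M, hM, -, -, hind⟩ := main K hK L hL hb hA
      exact h M hM hind
    · by_contra hA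
      obtain ⟨M, hM, -, -, hmany⟩ := main K hK L hL hb hA
      obtain ⟨a, b, hab, hind⟩ := exists_pair hn hmany ⟨0, by omega⟩
      exact h M hM _ a b hab hind
  · -- part 5
    intro hp L hL hb hA hrec W f f' hW hf hne
    have hdet := Pool.Agent.H905R2.Opp.det_ne hL
    refine avoid_cone (by omega) hdet W f hW
      (fun k M hM => (hf k M hM).continuousAt.continuousWithinAt) ?_
    intro k M hMW hMC h0 hev
    have hint := not_propInt hn hL hb hA
    obtain ⟨ν, hν, hF⟩ := hb
    have hM := minB_of_recurrent ((recurrent_iff L).1 hrec)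
    refine hne k M hMW h0 (R503.CSD.strict_zero hn hp hdet hν hF hint subset_rfl hM
      ((cone_eq L M).1 hMC) (hf k M hMW) (c := 0) ?_)
    filter_upwards [hev] with L'' h1 h2
    exact h1 ((cone_eq L L'').2 h2)
  · -- part 6
    intro hp L hL hb hA hrec W f hW hWc hf hne
    exact avoid_analytic hn hp hL hb hA hrec W f hW hWc hf hne
  · -- part 7
    intro hp K
    refine ⟨fun M => manyIndependent_iff hp K M, fun hK => ?_⟩
    rw [opp K hK]
    constructor
    · intro h M hM
      exact h M (linearIndependent_of_indep K hM) ((manyIndependent_iff hp K M).2 hM)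
    · intro h M _ hM
      exact h M ((manyIndependent_iff hp K M).1 hM)

end Pool.Agent.Results.MP_77d073_nt.IndependentCoefficients
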