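import Mathlib
import Pool.Agent.R503.CSD.Loc

/-! # MP_77d073_nt: differentiable functions on the limits of a counterexample

Let `n ≥ 3`, let `L 1, ..., L n` be independent linear forms with product `F` bounded away from zero
at the nonzero integer points, let `Limits L` be the set of the limits of the systems
`a i • (L i ∘ γ)` (`a` positive of product one, `γ` integral of determinant `±1`) and `Cone L` the
set of their positive multiples. `L` is recurrent if it lies in `Limits L'` for all `L'` in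
`Limits L`.

1. If Oppenheim's conclusion holds for `L`, then `Cone L` is near each of its points `L'` the set of
   the systems `a i • L' i` near `L'`.
2. Let `i` be an index and `J` a set of more than `n - p` indices `j ≠ i`, `p` the smallest prime
   factor of `n`. Oppenheim's conclusion holds for `L` if and only if there are a recurrent `L'` in
   `Limits L` and a real function, zero on `Limits L'` near `L'` and strictly differentiable at
   `L'`, whose derivative in the direction in which `L' j` is added to `L' i` is not zero for all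
   `j` in `J`.
3. Let `n` be prime and let `L` be a recurrent counterexample. (a) A function which is strictly
   differentiable at a point of `Cone L` and constant on `Cone L` near this point has derivative
   zero. (b) If a `C^k` function on an open set `W` is zero on `W ∩ Cone L`, so are all its
   derivatives of order `≤ k`. (c) An analytic function on a connected open set which meets `Cone L`
   is zero if it is zero on `Cone L`.
4. So, for prime `n`, Oppenheim's conclusion holds for `L` if and only if for some recurrent `L'` in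
   `Limits L` there is a real function, strictly differentiable at `L'` with nonzero derivative,
   which is zero on `Cone L'` near `L'` (for example if `Cone L'` lies in a `C^1` hypersurface near
   `L'`).
5. Oppenheim's conjecture in the prime dimension `n` is equivalent to: for every recurrent `L` with
   `F` bounded away from zero there is such a function at `L`. -/

set_option autoImplicit false

open Filter Topology

namespace Pool.Agent.Results.MP_77d073_nt.SmoothRigidity

variable {n : ℕ}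

/-- the product of the linear forms with the coefficients `L i`, at an integer point -/
noncomputable def F (L : Fin n → Fin n → ℝ) (p : Fin n → ℤ) : ℝ :=
  ∏ i : Fin n, ∑ j : Fin n, L i j * (p j : ℝ)

/-- the product is bounded away from zero at the nonzero integer points -/
def BoundedAway (L : Fin n → Fin n → ℝ) : Prop :=
  ∃ ν : ℝ, 0 < ν ∧ ∀ p : Fin n → ℤ, p ≠ 0 → ν ≤ |F L p|

/-- Oppenheim's conclusion: there is an irreducible RS-matrix whose invariant planes are the
hyperplanes `L i = 0`. -/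
def HasMatrix (L : Fin n → Fin n → ℝ) : Prop :=
  ∃ A : Matrix (Fin n) (Fin n) ℤ,
    A.det = 1 ∧
    Irreducible (A.charpoly.map (Int.castRingHom ℚ)) ∧
    (∀ z : ℂ, Polynomial.aeval z A.charpoly = 0 → z.im = 0) ∧
    ∀ i : Fin n, ∀ x : Fin n → ℝ, ∑ j, L i j * x j = 0 →
      ∑ j, L i j * ((A.map (Int.cast : ℤ → ℝ)).mulVec x) j = 0

/-- Oppenheim's conjecture in dimension `n` -/
def Oppenheim (n : ℕ) : Prop :=
  ∀ L : Fin n → Fin n → ℝ, LinearIndependent ℝ L → BoundedAway L → HasMatrix L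

/-- The limits of the systems `a i • (L i ∘ γ)`, `a` positive of product one, `γ` integral of
determinant `±1`. -/
def Limits (L : Fin n → Fin n → ℝ) : Set (Fin n → Fin n → ℝ) :=
  closure {L' | ∃ (a : Fin n → ℝ) (γ : Matrix (Fin n) (Fin n) ℤ), (∀ i, 0 < a i) ∧
    ∏ i, a i = 1 ∧ |γ.det| = 1 ∧ ∀ i j, L' i j = a i * ∑ k, L i k * (γ k j : ℝ)}

/-- the positive multiples of the limits -/
def Cone (L : Fin n → Fin n → ℝ) : Set (Fin n → Fin n → ℝ) :=
  {L' | ∃ c : ℝ, 0 < c ∧ ∃ L'' ∈ Limits L, L' = c • L''}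

/-- `L` is a limit of each of its limits. -/
def Recurrent (L : Fin n → Fin n → ℝ) : Prop := ∀ L' ∈ Limits L, L ∈ Limits L'

/-- the form `L j` in place `i`, the other forms zero -/
def place (i j : Fin n) (L : Fin n → Fin n → ℝ) : Fin n → Fin n → ℝ :=
  fun a => if a = i then L j else 0

/-- There is a real function, strictly differentiable at `L` with nonzero derivative, which is zero
on `Cone L` near `L`. -/
def HasSmoothRelation (L : Fin n → Fin n → ℝ) : Prop :=
  ∃ (f : (Fin n → Fin n → ℝ) → ℝ) (f' : (Fin n → Fin n → ℝ) →L[ℝ] ℝ),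
    HasStrictFDerivAt f f' L ∧ f' ≠ 0 ∧ ∀ᶠ L' in 𝓝 L, L' ∈ Cone L → f L' = 0

lemma limits_eq (L : Fin n → Fin n → ℝ) (L' : Fin n → Fin n → ℝ) :
    L' ∈ Limits L ↔ Matrix.of L' ∈ closure (H715R2.Orb (Matrix.of L)) := by
  have h1 : {L' : Fin n → Fin n → ℝ | ∃ (a : Fin n → ℝ) (γ : Matrix (Fin n) (Fin n) ℤ),
      (∀ i, 0 < a i) ∧ ∏ i, a i = 1 ∧ |γ.det| = 1 ∧
      ∀ i j, L' i j = a i * ∑ k, L i k * (γ k j : ℝ)} =
      (H715R2.Orb (Matrix.of L) : Set (Fin n → Fin n → ℝ)) := by
    ext h
    constructor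
    · rintro ⟨a, γ, ha0, ha1, hγ, hh⟩
      refine ⟨a, γ, ha0, ha1, Int.isUnit_iff_abs_eq.2 hγ, ?_⟩
      funext i j
      rw [hh, Matrix.mul_assoc, Matrix.diagonal_mul, Matrix.mul_apply]
      rfl
    · rintro ⟨a, γ, ha0, ha1, hγ, hh⟩
      refine ⟨a, γ, ha0, ha1, Int.isUnit_iff_abs_eq.1 hγ, fun i j => ?_⟩
      rw [hh, Matrix.mul_assoc, Matrix.diagonal_mul, Matrix.mul_apply]
      rfl
  unfold Limits
  rw [h1]
  rfl

lemma cone_eq (L : Fin n → Fin n → ℝ) (L' : Fin n → Fin n → ℝ) :
    L' ∈ Cone L ↔ L' ∈ R503.CSD.Cn (closure (H715R2.Orb (Matrix.of L))) := by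
  unfold Cone R503.CSD.Cn
  simp only [limits_eq]
  rfl

lemma place_eq (i j : Fin n) (L : Fin n → Fin n → ℝ) : place i j L = R503.CSD.RR i j L := by
  funext a b
  simp only [place, R503.CSD.RR]
  split_ifs <;> rfl

lemma indep_of_det {L : Fin n → Fin n → ℝ} (h : (Matrix.of L).det ≠ 0) :
    LinearIndependent ℝ L := by
  have h1 : IsUnit (Matrix.of L) :=
    (Matrix.isUnit_iff_isUnit_det _).2 (isUnit_iff_ne_zero.2 h)
  exact Matrix.linearIndependent_rows_iff_isUnit.2 h1

lemma recurrent_iff (L : Fin n → Fin n → ℝ) :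
    Recurrent L ↔ TH314.CSD.Recurrent (Matrix.of L) := by
  unfold Recurrent TH314.CSD.Recurrent
  simp only [limits_eq]
  exact Iff.rfl

lemma minB_of_recurrent {h : Matrix (Fin n) (Fin n) ℝ} (hh : TH314.CSD.Recurrent h) :
    Y327.MinB id (closure (H715R2.Orb h)) := by
  refine ⟨isClosed_closure, ⟨h, subset_closure (H715R2.mem_orb_self h)⟩,
    Y327.invB_of_inv (TH314.CSD.inv_closure h) id, fun Z hZ hZc hZne hZinv => ?_⟩
  obtain ⟨h', hh'⟩ := hZne
  refine subset_antisymm hZ ?_
  have h1 : closure (H715R2.Orb h') ⊆ Z := by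
    refine closure_minimal ?_ hZc
    rintro _ ⟨a, γ, ha0, ha1, hγ, rfl⟩
    exact hZinv h' hh' a γ ⟨ha0, ha1, fun i j hij => by rw [show i = j from hij]⟩ hγ
  exact (TH314.CSD.orb_closure_trans (hh h' (hZ hh'))).trans h1

lemma not_propInt (hn : 3 ≤ n) {L : Fin n → Fin n → ℝ} (hL : LinearIndependent ℝ L)
    (hb : BoundedAway L) (hA : ¬ HasMatrix L) : ¬ H715R2.PropInt (Matrix.of L) := fun hP =>
  hA (Pool.Agent.H905R2.Opp.opp_of_propInt (by omega) hL hb hP)

lemma propInt (hn : 3 ≤ n) {L : Fin n → Fin n → ℝ} (hL : LinearIndependent ℝ L)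
    (hb : BoundedAway L) (hA : HasMatrix L) : H715R2.PropInt (Matrix.of L) := by
  obtain ⟨ν, hν, hF⟩ := hb
  obtain ⟨A, -, hA1, -, hA2⟩ := hA
  exact Y327.propInt_of_opp hn (Pool.Agent.H905R2.Opp.det_ne hL) hν hF hA1 hA2

/-- the properties of a limit -/
lemma limit_props (hn : 3 ≤ n) {L : Fin n → Fin n → ℝ} (hL : LinearIndependent ℝ L)
    (hb : BoundedAway L) {L' : Fin n → Fin n → ℝ} (hL' : L' ∈ Limits L) :
    LinearIndependent ℝ L' ∧ BoundedAway L' ∧ (HasMatrix L ↔ HasMatrix L') := by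
  have hdet := Pool.Agent.H905R2.Opp.det_ne hL
  have h1 := (limits_eq L L').1 hL'
  have hdet' : (Matrix.of L').det ≠ 0 := by
    rw [← abs_ne_zero, H715R2.abs_det_closure h1, abs_ne_zero]
    exact hdet
  have hind := indep_of_det hdet'
  obtain ⟨ν, hν, hF⟩ := hb
  have hb' : BoundedAway L' := ⟨ν, hν, H715R2.hasNu_closure hF h1⟩
  refine ⟨hind, hb', fun hA => ?_, fun hA => ?_⟩
  · by_contra hA'
    exact not_propInt hn hind hb' hA'
      (Y327.propInt_closure hn hdet hν hF (propInt hn hL ⟨ν, hν, hF⟩ hA) h1)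
  · by_contra hA'
    exact Y327.not_propInt_closure hn hdet hν hF (not_propInt hn hL ⟨ν, hν, hF⟩ hA') h1
      (propInt hn hind hb' hA)

/-- there are recurrent limits -/
lemma exists_recurrent (hn : 3 ≤ n) {L : Fin n → Fin n → ℝ} (hL : LinearIndependent ℝ L)
    (hb : BoundedAway L) : ∃ L' ∈ Limits L, Recurrent L' := by
  have hdet := Pool.Agent.H905R2.Opp.det_ne hL
  obtain ⟨ν, hν, hF⟩ := hb
  obtain ⟨M, hMg, hM⟩ := Y327.exists_min_closure (by omega : 0 < n) hdet hν hF
  obtain ⟨h, hh⟩ := hM.ne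
  obtain ⟨L', rfl⟩ : ∃ L' : Fin n → Fin n → ℝ, Matrix.of L' = h := ⟨h, rfl⟩
  refine ⟨L', (limits_eq L L').2 (hMg hh), (recurrent_iff L').2 ?_⟩
  have hcl : ∀ h' ∈ M, closure (H715R2.Orb h') = M := fun h' hh' =>
    H715R2.closure_orb_eq hM.closed (Y327.inv_of_invB hM.inv)
      (fun Z hZ hZc hZn hZi => hM.min Z hZ hZc hZn (Y327.invB_of_inv hZi id)) hh'
  intro h' hh'
  rw [hcl _ hh] at hh'
  rw [hcl _ hh']
  exact hh

/-- a linear functional which vanishes on the diagonal orbit -/
lemma exists_functional {L : Fin n → Fin n → ℝ} (hdet : (Matrix.of L).det ≠ 0) (i : Fin n)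
    (J : Finset (Fin n)) (hiJ : i ∉ J) :
    ∃ f : (Fin n → Fin n → ℝ) →L[ℝ] ℝ, (∀ a : Fin n → ℝ, f (fun k l => a k * L k l) = 0) ∧
      ∀ j ∈ J, f (place i j L) = 1 := by
  classical
  have hu : IsUnit (Matrix.of L).det := isUnit_iff_ne_zero.2 hdet
  set Q : Matrix (Fin n) (Fin n) ℝ := (Matrix.of L)⁻¹ with hQ
  have hQ1 : ∀ k l : Fin n, ∑ m, L k m * Q m l = if k = l then 1 else 0 := by
    intro k l
    have h1 := congrFun (congrFun (Matrix.mul_nonsing_inv (Matrix.of L) hu) k) l
    rw [Matrix.mul_apply, Matrix.one_apply] at h1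
    exact h1
  set f : (Fin n → Fin n → ℝ) →L[ℝ] ℝ := ∑ j ∈ J, ∑ m, (Q m j) •
    ((ContinuousLinearMap.proj (R := ℝ) (φ := fun _ : Fin n => ℝ) m).comp
      (ContinuousLinearMap.proj (R := ℝ) (φ := fun _ : Fin n => (Fin n → ℝ)) i)) with hf
  have hfX : ∀ X : Fin n → Fin n → ℝ, f X = ∑ j ∈ J, ∑ m, X i m * Q m j := by
    intro X
    simp only [hf, ContinuousLinearMap.sum_apply, ContinuousLinearMap.smul_apply,
      ContinuousLinearMap.comp_apply, ContinuousLinearMap.proj_apply, smul_eq_mul]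
    refine Finset.sum_congr rfl fun j _ => Finset.sum_congr rfl fun m _ => mul_comm _ _
  refine ⟨f, fun a => ?_, fun j hj => ?_⟩
  · rw [hfX]
    refine Finset.sum_eq_zero fun j hj => ?_
    have h1 : ∑ m, a i * L i m * Q m j = a i * ∑ m, L i m * Q m j := by
      rw [Finset.mul_sum]
      exact Finset.sum_congr rfl fun m _ => by ring
    rw [h1, hQ1, if_neg (fun h : i = j => hiJ (h ▸ hj)), mul_zero]
  · rw [hfX]
    have h1 : ∀ k, ∑ m, place i j L i m * Q m k = if j = k then 1 else 0 := by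
      intro k
      rw [← hQ1]
      refine Finset.sum_congr rfl fun m _ => ?_
      simp [place]
    simp only [h1]
    rw [Finset.sum_ite_eq, if_pos hj]

theorem result (n : ℕ) (hn : 3 ≤ n) :
    -- 1. Oppenheim's conclusion: the cone is locally a diagonal orbit
    (∀ L : Fin n → Fin n → ℝ, LinearIndependent ℝ L → BoundedAway L → HasMatrix L →
      ∀ L' ∈ Cone L, ∀ᶠ L'' in 𝓝 L', L'' ∈ Cone L →
        ∃ a : Fin n → ℝ, (∀ i, 0 < a i) ∧ L'' = fun i j => a i * L' i j) ∧
    -- 2. a criterion, for all `n`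
    (∀ L : Fin n → Fin n → ℝ, LinearIndependent ℝ L → BoundedAway L →
      ∀ (i : Fin n) (J : Finset (Fin n)), i ∉ J → n < J.card + n.minFac →
        (HasMatrix L ↔ ∃ L' ∈ Limits L, Recurrent L' ∧
          ∃ (f : (Fin n → Fin n → ℝ) → ℝ) (f' : (Fin n → Fin n → ℝ) →L[ℝ] ℝ),
            HasStrictFDerivAt f f' L' ∧ (∀ᶠ L'' in 𝓝 L', L'' ∈ Limits L' → f L'' = 0) ∧
            ∀ j ∈ J, f' (place i j L') ≠ 0)) ∧
    -- 3. recurrent counterexamples in prime dimension
    (n.Prime → ∀ L : Fin n → Fin n → ℝ, LinearIndependent ℝ L → BoundedAway L →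
      ¬ HasMatrix L → Recurrent L →
        -- (a) strictly differentiable functions
        (∀ L' ∈ Cone L, ∀ (f : (Fin n → Fin n → ℝ) → ℝ) (f' : (Fin n → Fin n → ℝ) →L[ℝ] ℝ),
          HasStrictFDerivAt f f' L' → (∀ᶠ L'' in 𝓝 L', L'' ∈ Cone L → f L'' = f L') →
          f' = 0) ∧
        -- (b) functions of class `C^k`
        (∀ (W : Set (Fin n → Fin n → ℝ)) (f : (Fin n → Fin n → ℝ) → ℝ) (k : WithTop ℕ∞),
          IsOpen W → ContDiffOn ℝ k f W → (∀ L' ∈ W ∩ Cone L, f L' = 0) →
          ∀ m : ℕ, (m : WithTop ℕ∞) ≤ k → ∀ L' ∈ W ∩ Cone L, iteratedFDeriv ℝ m f L' = 0) ∧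
        -- (c) analytic functions
        (∀ (W : Set (Fin n → Fin n → ℝ)) (f : (Fin n → Fin n → ℝ) → ℝ),
          IsOpen W → IsConnected W → AnalyticOnNhd ℝ f W → (W ∩ Cone L).Nonempty →
          (∀ L' ∈ W ∩ Cone L, f L' = 0) → ∀ L' ∈ W, f L' = 0)) ∧
    -- 4. a criterion in prime dimension
    (n.Prime → ∀ L : Fin n → Fin n → ℝ, LinearIndependent ℝ L → BoundedAway L →
      (HasMatrix L ↔ ∃ L' ∈ Limits L, Recurrent L' ∧ HasSmoothRelation L')) ∧
    -- 5. the conjecture in prime dimension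
    (n.Prime → (Oppenheim n ↔ ∀ L : Fin n → Fin n → ℝ, LinearIndependent ℝ L →
      BoundedAway L → Recurrent L → HasSmoothRelation L)) := by
  classical
  have hn0 : 0 < n := by omega
  have part1 : ∀ L : Fin n → Fin n → ℝ, LinearIndependent ℝ L → BoundedAway L → HasMatrix L →
      ∀ L' ∈ Cone L, ∀ᶠ L'' in 𝓝 L', L'' ∈ Cone L →
        ∃ a : Fin n → ℝ, (∀ i, 0 < a i) ∧ L'' = fun i j => a i * L' i j := by
    intro L hL hb hA L' hL'
    have hP := propInt hn hL hb hA
    obtain ⟨ν, hν, hF⟩ := hb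
    have h1 := R503.CSD.loc_cn hn0 (Pool.Agent.H905R2.Opp.det_ne hL) hν hF hP
      ((cone_eq L L').1 hL')
    filter_upwards [h1] with L'' h2 h3
    exact h2 ((cone_eq L L'').1 h3)
  have self_mem : ∀ L : Fin n → Fin n → ℝ, L ∈ Limits L := fun L =>
    (limits_eq L L).2 (subset_closure (H715R2.mem_orb_self _))
  have self_cone : ∀ L : Fin n → Fin n → ℝ, L ∈ Cone L := fun L =>
    ⟨1, one_pos, L, self_mem L, by rw [one_smul]⟩
  have lim_cone : ∀ L L' : Fin n → Fin n → ℝ, L' ∈ Limits L → L' ∈ Cone L := fun L L' h =>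
    ⟨1, one_pos, L', h, by rw [one_smul]⟩
  have part3 : n.Prime → ∀ L : Fin n → Fin n → ℝ, LinearIndependent ℝ L → BoundedAway L →
      ¬ HasMatrix L → Recurrent L →
        (∀ L' ∈ Cone L, ∀ (f : (Fin n → Fin n → ℝ) → ℝ) (f' : (Fin n → Fin n → ℝ) →L[ℝ] ℝ),
          HasStrictFDerivAt f f' L' → (∀ᶠ L'' in 𝓝 L', L'' ∈ Cone L → f L'' = f L') →
          f' = 0) := by
    intro hp L hL hb hA hrec L' hL' f f' hf hz
    have hint := not_propInt hn hL hb hA
    obtain ⟨ν, hν, hF⟩ := hb
    have hM := minB_of_recurrent ((recurrent_iff L).1 hrec)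
    refine R503.CSD.strict_zero hn hp (Pool.Agent.H905R2.Opp.det_ne hL) hν hF hint subset_rfl hM
      ((cone_eq L L').1 hL') hf (c := f L') ?_
    filter_upwards [hz] with L'' h1 h2
    exact h1 ((cone_eq L L'').2 h2)
  have part1f : ∀ L : Fin n → Fin n → ℝ, LinearIndependent ℝ L → BoundedAway L → HasMatrix L →
      HasSmoothRelation L := by
    intro L hL hb hA
    have hdet := Pool.Agent.H905R2.Opp.det_ne hL
    obtain ⟨f, hf1, hf2⟩ := exists_functional hdet (⟨0, by omega⟩ : Fin n)
      {(⟨1, by omega⟩ : Fin n)} (by simp)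
    refine ⟨f, f, f.hasStrictFDerivAt, ?_, ?_⟩
    · intro h0
      have h1 := hf2 _ (Finset.mem_singleton_self _)
      rw [h0] at h1
      simp at h1
    · filter_upwards [part1 L hL hb hA L (self_cone L)] with L'' h1 h2
      obtain ⟨a, -, rfl⟩ := h1 h2
      exact hf1 a
  refine ⟨part1, ?_, ?_, ?_, ?_⟩
  · -- part 2
    intro L hL hb i J hiJ hJ
    constructor
    · intro hA
      obtain ⟨L', hL', hrec⟩ := exists_recurrent hn hL hb
      obtain ⟨hi', hb', hA'⟩ := limit_props hn hL hb hL'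
      obtain ⟨f, hf1, hf2⟩ := exists_functional (Pool.Agent.H905R2.Opp.det_ne hi') i J hiJ
      refine ⟨L', hL', hrec, f, f, f.hasStrictFDerivAt, ?_, fun j hj => ?_⟩
      · filter_upwards [part1 L' hi' hb' (hA'.1 hA) L' (self_cone L')] with L'' h1 h2
        obtain ⟨a, -, rfl⟩ := h1 (lim_cone L' L'' h2)
        exact hf1 a
      · rw [hf2 j hj]
        exact one_ne_zero
    · rintro ⟨L', hL', hrec, f, f', hf, hz, hne⟩
      by_contra hA
      obtain ⟨hi', hb', hA'⟩ := limit_props hn hL hb hL'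
      have hint := not_propInt hn hi' hb' (fun h => hA (hA'.2 h))
      obtain ⟨ν, hν, hF⟩ := hb'
      have hM := minB_of_recurrent ((recurrent_iff L').1 hrec)
      have hmem : Matrix.of L' ∈ closure (H715R2.Orb (Matrix.of L')) :=
        subset_closure (H715R2.mem_orb_self _)
      have hdet' := Pool.Agent.H905R2.Opp.det_ne hi'
      obtain ⟨j, hj, hs⟩ := Y327.exists_sam_of_card (i := i) hn hdet' hν hF hint subset_rfl hM
        hmem hJ
      have hij : i ≠ j := fun h0 => hiJ (h0 ▸ hj)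
      have h1 := R503.CSD.strict_sam hn hdet' hν hF subset_rfl hM hmem hij hs hmem hf (c := 0) (by
        filter_upwards [hz] with L'' h1 h2
        exact h1 ((limits_eq L' L'').2 h2))
      rw [← place_eq] at h1
      exact hne j hj h1
  · -- part 3
    intro hp L hL hb hA hrec
    refine ⟨part3 hp L hL hb hA hrec, ?_, ?_⟩
    · intro W f k hW hf hz m hm L' hL'
      have hint := not_propInt hn hL hb hA
      obtain ⟨ν, hν, hF⟩ := hb
      have hM := minB_of_recurrent ((recurrent_iff L).1 hrec)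
      exact R503.CSD.iterated_zero hn hp (Pool.Agent.H905R2.Opp.det_ne hL) hν hF hint subset_rfl
        hM hW hf (fun h hh hhc => hz h ⟨hh, (cone_eq L h).2 hhc⟩) m hm L' hL'.1
        ((cone_eq L L').1 hL'.2)
    · rintro W f hW hWc hf ⟨L₀, hL₀⟩ hz
      have hint := not_propInt hn hL hb hA
      obtain ⟨ν, hν, hF⟩ := hb
      have hM := minB_of_recurrent ((recurrent_iff L).1 hrec)
      exact R503.CSD.analytic_zero hn hp (Pool.Agent.H905R2.Opp.det_ne hL) hν hF hint subset_rfl
        hM hW hWc.isPreconnected hf (fun h hh hhc => hz h ⟨hh, (cone_eq L h).2 hhc⟩) hL₀.1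
        ((cone_eq L L₀).1 hL₀.2)
  · -- part 4
    intro hp L hL hb
    constructor
    · intro hA
      obtain ⟨L', hL', hrec⟩ := exists_recurrent hn hL hb
      obtain ⟨hi', hb', hA'⟩ := limit_props hn hL hb hL'
      exact ⟨L', hL', hrec, part1f L' hi' hb' (hA'.1 hA)⟩
    · rintro ⟨L', hL', hrec, f, f', hf, hne, hz⟩
      by_contra hA
      obtain ⟨hi', hb', hA'⟩ := limit_props hn hL hb hL'
      refine hne (part3 hp L' hi' hb' (fun h => hA (hA'.2 h)) hrec L' (self_cone L') f f' hf ?_)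
      filter_upwards [hz] with L'' h1 h2
      rw [h1 h2, hz.self_of_nhds (self_cone L')]
  · -- part 5
    intro hp
    constructor
    · intro hO L hL hb _
      exact part1f L hL hb (hO L hL hb)
    · intro hO L hL hb
      by_contra hA
      obtain ⟨L', hL', hrec⟩ := exists_recurrent hn hL hb
      obtain ⟨hi', hb', hA'⟩ := limit_props hn hL hb hL'
      obtain ⟨f, f', hf, hne, hz⟩ := hO L' hi' hb' hrec
      refine hne (part3 hp L' hi' hb' (fun h => hA (hA'.2 h)) hrec L' (self_cone L') f f' hf ?_)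
      filter_upwards [hz] with L'' h1 h2
      rw [h1 h2, hz.self_of_nhds (self_cone L')]

end Pool.Agent.Results.MP_77d073_nt.SmoothRigidity
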